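import Mathlib

/-! The number field `ℚ(√-p)`: integral basis, discriminant, units. -/

set_option autoImplicit false

namespace Pool.Agent.R441.CN

open NumberField Module

section
variable {K : Type*} [Field K] [NumberField K] {p : ℕ} {α : K}

lemma not_rat (hp : 0 < p) (hα : α ^ 2 = -(p : K)) (q : ℚ) : (algebraMap ℚ K q) ≠ α := by
  intro h
  rw [← h, ← map_pow] at hα
  have h1 : algebraMap ℚ K (q ^ 2) = algebraMap ℚ K (-(p : ℚ)) := by
    rw [hα]; simp
  have h2 := (algebraMap ℚ K).injective h1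
  have h3 : (0 : ℚ) < p := by exact_mod_cast hp
  nlinarith [sq_nonneg q]

lemma linInd (hp : 0 < p) (hα : α ^ 2 = -(p : K)) : LinearIndependent ℚ ![(1 : K), α] := by
  rw [LinearIndependent.pair_iff]
  intro s t h
  have ht : t = 0 := by
    by_contra ht
    apply not_rat hp hα (-(s / t))
    have h1 : algebraMap ℚ K s + algebraMap ℚ K t * α = 0 := by
      rw [Algebra.smul_def, Algebra.smul_def, mul_one] at h
      exact h
    have h2 : algebraMap ℚ K t ≠ 0 := by
      simpa using ht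
    rw [map_neg, map_div₀]
    field_simp
    linear_combination -h1
  subst ht
  refine ⟨?_, rfl⟩
  simpa using h

noncomputable def bas (h2 : finrank ℚ K = 2) (hp : 0 < p) (hα : α ^ 2 = -(p : K)) :
    Basis (Fin 2) ℚ K :=
  basisOfLinearIndependentOfCardEqFinrank (linInd hp hα) (by simp [h2])

lemma bas_zero (h2 : finrank ℚ K = 2) (hp : 0 < p) (hα : α ^ 2 = -(p : K)) :
    bas h2 hp hα 0 = 1 := by simp [bas]

lemma bas_one (h2 : finrank ℚ K = 2) (hp : 0 < p) (hα : α ^ 2 = -(p : K)) :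
    bas h2 hp hα 1 = α := by simp [bas]

lemma exists_coord (h2 : finrank ℚ K = 2) (hp : 0 < p) (hα : α ^ 2 = -(p : K)) (x : K) :
    ∃ a b : ℚ, x = algebraMap ℚ K a + algebraMap ℚ K b * α := by
  have h := (bas h2 hp hα).sum_repr x
  rw [Fin.sum_univ_two, bas_zero, bas_one, Algebra.smul_def, Algebra.smul_def, mul_one] at h
  exact ⟨_, _, h.symm⟩

lemma repr_eq (h2 : finrank ℚ K = 2) (hp : 0 < p) (hα : α ^ 2 = -(p : K)) (a b : ℚ) :
    (bas h2 hp hα).repr (algebraMap ℚ K a + algebraMap ℚ K b * α) = Finsupp.single 0 a +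
      Finsupp.single 1 b := by
  have : algebraMap ℚ K a + algebraMap ℚ K b * α = a • bas h2 hp hα 0 + b • bas h2 hp hα 1 := by
    rw [bas_zero, bas_one, Algebra.smul_def, Algebra.smul_def, mul_one]
  rw [this, map_add, map_smul, map_smul, Basis.repr_self, Basis.repr_self]
  simp

lemma mulMat (h2 : finrank ℚ K = 2) (hp : 0 < p) (hα : α ^ 2 = -(p : K)) (a b : ℚ) :
    Algebra.leftMulMatrix (bas h2 hp hα) (algebraMap ℚ K a + algebraMap ℚ K b * α) =
      !![a, -(p * b); b, a] := by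
  ext i j
  rw [Algebra.leftMulMatrix_eq_repr_mul]
  fin_cases j
  · have e : (algebraMap ℚ K a + algebraMap ℚ K b * α) * bas h2 hp hα 0 =
        algebraMap ℚ K a + algebraMap ℚ K b * α := by rw [bas_zero, mul_one]
    show ((bas h2 hp hα).repr ((algebraMap ℚ K a + algebraMap ℚ K b * α) * bas h2 hp hα 0)) i = _
    rw [e, repr_eq]
    fin_cases i <;> simp
  · have e : (algebraMap ℚ K a + algebraMap ℚ K b * α) * bas h2 hp hα 1 =
        algebraMap ℚ K (-(p * b)) + algebraMap ℚ K a * α := by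
      rw [bas_one]
      have : algebraMap ℚ K (-(p * b)) = -(p : K) * algebraMap ℚ K b := by simp
      rw [this, ← hα]
      ring
    show ((bas h2 hp hα).repr ((algebraMap ℚ K a + algebraMap ℚ K b * α) * bas h2 hp hα 1)) i = _
    rw [e, repr_eq]
    fin_cases i <;> simp

lemma trace_eq (h2 : finrank ℚ K = 2) (hp : 0 < p) (hα : α ^ 2 = -(p : K)) (a b : ℚ) :
    Algebra.trace ℚ K (algebraMap ℚ K a + algebraMap ℚ K b * α) = 2 * a := by
  rw [Algebra.trace_eq_matrix_trace (bas h2 hp hα), mulMat]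
  simp [Matrix.trace_fin_two]
  ring

lemma norm_eq (h2 : finrank ℚ K = 2) (hp : 0 < p) (hα : α ^ 2 = -(p : K)) (a b : ℚ) :
    Algebra.norm ℚ (algebraMap ℚ K a + algebraMap ℚ K b * α) = a ^ 2 + p * b ^ 2 := by
  rw [Algebra.norm_eq_matrix_det (bas h2 hp hα), mulMat]
  simp [Matrix.det_fin_two]
  ring

/-- a rational with `p u²` an integer is an integer -/
lemma int_of_sq {p : ℕ} (hp : p.Prime) (u : ℚ) (n : ℤ) (h : p * u ^ 2 = n) : ∃ m : ℤ, u = m := by
  have h1 : IsIntegral ℤ ((p : ℚ) * u) := by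
    have : ((p : ℚ) * u) ^ 2 = ((p * n : ℤ) : ℚ) := by push_cast; rw [← h]; ring
    have h2 : IsIntegral ℤ (((p : ℚ) * u) ^ 2) := by
      rw [this]; exact isIntegral_algebraMap (R := ℤ) (A := ℚ) (x := (p * n : ℤ))
    exact h2.of_pow (by norm_num)
  obtain ⟨m, hm⟩ := IsIntegrallyClosed.isIntegral_iff.1 h1
  have hm' : (m : ℚ) = p * u := by simpa using hm
  have hp0 : (p : ℚ) ≠ 0 := by exact_mod_cast hp.ne_zero
  have h3 : ((m : ℚ)) ^ 2 = p * n := by rw [hm', ← h]; ring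
  have h4 : m ^ 2 = p * n := by exact_mod_cast h3
  have h5 : (p : ℤ) ∣ m := Int.Prime.dvd_pow' hp (Dvd.intro _ h4.symm)
  obtain ⟨t, ht⟩ := h5
  refine ⟨t, ?_⟩
  rw [ht] at hm'
  push_cast at hm'
  exact (mul_left_cancel₀ hp0 hm').symm

lemma coords (h2 : finrank ℚ K = 2) (hp : p.Prime) (hα : α ^ 2 = -(p : K)) (x : K)
    (hx : IsIntegral ℤ x) : ∃ t u : ℤ, 4 ∣ t ^ 2 + p * u ^ 2 ∧ 2 * x = t + u * α := by
  obtain ⟨a, b, rfl⟩ := exists_coord h2 hp.pos hα x
  have h1 := Algebra.isIntegral_trace (L := ℚ) (F := K) (R := ℤ) (x := algebraMap ℚ K a + algebraMap ℚ K b * α) hx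
  have h3 := Algebra.isIntegral_norm (K := ℚ) (R := ℤ) (L := K) (x := algebraMap ℚ K a + algebraMap ℚ K b * α) hx
  rw [trace_eq h2 hp.pos hα] at h1
  rw [norm_eq h2 hp.pos hα] at h3
  obtain ⟨t, ht⟩ := IsIntegrallyClosed.isIntegral_iff.1 h1
  obtain ⟨n, hn⟩ := IsIntegrallyClosed.isIntegral_iff.1 h3
  have ht' : (t : ℚ) = 2 * a := by simpa using ht
  have hn' : (n : ℚ) = a ^ 2 + p * b ^ 2 := by simpa using hn
  obtain ⟨u, hu⟩ := int_of_sq hp (2 * b) (4 * n - t ^ 2) (by push_cast; rw [ht', hn']; ring)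
  refine ⟨t, u, ⟨n, ?_⟩, ?_⟩
  · have : ((t ^ 2 + p * u ^ 2 : ℤ) : ℚ) = ((4 * n : ℤ) : ℚ) := by
      push_cast
      rw [ht', hn', ← hu]
      ring
    exact_mod_cast this
  · have e1 : (t : K) = 2 * algebraMap ℚ K a := by
      have : algebraMap ℚ K (t : ℚ) = algebraMap ℚ K (2 * a) := by rw [ht']
      simpa using this
    have e2 : (u : K) = 2 * algebraMap ℚ K b := by
      have : algebraMap ℚ K (u : ℚ) = algebraMap ℚ K (2 * b) := by rw [hu]
      simpa using this
    rw [e1, e2]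
    ring

lemma norm_coords (h2 : finrank ℚ K = 2) (hp : p.Prime) (hα : α ^ 2 = -(p : K)) (x : K) (t u : ℤ)
    (hx : 2 * x = t + u * α) : 4 * Algebra.norm ℚ x = t ^ 2 + p * u ^ 2 := by
  have e : x = algebraMap ℚ K (t / 2) + algebraMap ℚ K (u / 2) * α := by
    have : (2 : K) ≠ 0 := two_ne_zero
    apply mul_left_cancel₀ this
    rw [hx]
    simp only [map_div₀, map_intCast, map_ofNat]
    field_simp
  rw [e, norm_eq h2 hp.pos hα]
  ring

end

end Pool.Agent.R441.CN
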