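import Pool.Agent.R441.CN.A

/-! The discriminant of `ℚ(√-p)`. -/

set_option autoImplicit false

namespace Pool.Agent.R441.CN

open NumberField Module

section
variable {K : Type*} [Field K] [NumberField K] {p : ℕ} {α : K}

lemma discr_of_gen (h2 : finrank ℚ K = 2) (θ : 𝓞 K) (hli : LinearIndependent ℤ ![(1 : 𝓞 K), θ])
    (hsp : ∀ x : 𝓞 K, ∃ m n : ℤ, x = m + n * θ) :
    (discr K : ℚ) = 2 * Algebra.trace ℚ K ((θ : K) ^ 2) - (Algebra.trace ℚ K (θ : K)) ^ 2 := by
  set b : Basis (Fin 2) ℤ (𝓞 K) := Basis.mk hli (by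
    intro x _
    obtain ⟨m, n, h⟩ := hsp x
    rw [h]
    have e1 : (m : 𝓞 K) = m • (1 : 𝓞 K) := by simp
    have e2 : (n : 𝓞 K) * θ = n • θ := by simp
    rw [e1, e2]
    apply Submodule.add_mem
    · apply Submodule.smul_mem
      apply Submodule.subset_span
      exact ⟨0, by simp⟩
    · apply Submodule.smul_mem
      apply Submodule.subset_span
      exact ⟨1, by simp⟩) with hb
  have hb0 : b 0 = 1 := by rw [hb, Basis.mk_apply]; simp
  have hb1 : b 1 = θ := by rw [hb, Basis.mk_apply]; simp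
  rw [← discr_eq_discr K b, Algebra.discr_def, Matrix.det_fin_two]
  simp only [Algebra.traceMatrix_apply, Algebra.traceForm_apply, hb0, hb1, one_mul, mul_one]
  push_cast
  rw [Algebra.coe_trace_int, Algebra.coe_trace_int, Algebra.coe_trace_int]
  have e3 : Algebra.trace ℚ K (((1 : 𝓞 K)) : K) = 2 := by
    have h3 := Algebra.trace_algebraMap (R := ℚ) (S := K) (1 : ℚ)
    rw [map_one, h2] at h3
    have h4 : (((1 : 𝓞 K)) : K) = 1 := rfl
    rw [h4, h3]
    norm_num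
  rw [e3]
  have e4 : ((θ * θ : 𝓞 K) : K) = (θ : K) ^ 2 := by
    rw [sq]; rfl
  rw [e4]
  ring

lemma int_coe_eq (x : ℤ) : (((x : 𝓞 K)) : K) = (x : K) := by
  simp

lemma int_alpha (hα : α ^ 2 = -(p : K)) : IsIntegral ℤ α := by
  have h : IsIntegral ℤ ((p : K)) := by
    have := isIntegral_algebraMap (R := ℤ) (A := K) (x := (p : ℤ))
    simpa using this
  have h3 : IsIntegral ℤ (α ^ 2) := by
    rw [hα]; exact h.neg
  exact h3.of_pow (by norm_num)

lemma int_omega (hα : α ^ 2 = -(p : K)) (h4 : p % 4 = 3) : IsIntegral ℤ ((1 + α) / 2) := by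
  obtain ⟨k, hk⟩ : ∃ k, p + 1 = 4 * k := ⟨(p + 1) / 4, by omega⟩
  refine ⟨Polynomial.X ^ 2 - Polynomial.X + Polynomial.C (k : ℤ), ?_, ?_⟩
  · monicity!
  · have h5 : ((p : K)) + 1 = 4 * k := by exact_mod_cast congrArg (Nat.cast : ℕ → K) hk
    simp only [Polynomial.eval₂_add, Polynomial.eval₂_sub, Polynomial.eval₂_pow,
      Polynomial.eval₂_X, Polynomial.eval₂_C]
    have e : (algebraMap ℤ K) (k : ℤ) = (k : K) := by simp
    rw [e]
    field_simp
    linear_combination hα - h5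

lemma linInd_int (hp : 0 < p) (hα : α ^ 2 = -(p : K)) (θ : 𝓞 K) (s t : ℚ) (ht : t ≠ 0)
    (hθ : (θ : K) = algebraMap ℚ K s + algebraMap ℚ K t * α) :
    LinearIndependent ℤ ![(1 : 𝓞 K), θ] := by
  rw [LinearIndependent.pair_iff]
  intro m n h
  have h1 : (m : K) + n * (θ : K) = 0 := by
    have h2 := congrArg (algebraMap (𝓞 K) K) h
    rw [map_add, map_zsmul, map_zsmul, map_one, map_zero] at h2
    simpa using h2
  have hl := linInd hp hα
  rw [LinearIndependent.pair_iff] at hl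
  have h3 := hl (m + n * s) (n * t) (by
    rw [Algebra.smul_def, Algebra.smul_def, mul_one, ← h1, hθ]
    simp only [map_add, map_mul, map_intCast]
    ring)
  obtain ⟨h4, h5⟩ := h3
  have h6 : (n : ℚ) = 0 := by
    rcases mul_eq_zero.1 h5 with h | h
    · exact h
    · exact absurd h ht
  rw [h6, zero_mul, add_zero] at h4
  exact ⟨by exact_mod_cast h4, by exact_mod_cast h6⟩

lemma coe_lin (m n : ℤ) (θ : 𝓞 K) : (((m : 𝓞 K) + (n : 𝓞 K) * θ : 𝓞 K) : K) = m + n * (θ : K) := by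
  simp

/-- `p ≡ 1 (mod 4)`: the discriminant is `-4p`. -/
theorem discr_one (h2 : finrank ℚ K = 2) (hp : p.Prime) (hα : α ^ 2 = -(p : K))
    (h4 : p % 4 = 1) : discr K = -(4 * p) := by
  obtain ⟨θ, hθ⟩ : ∃ θ : 𝓞 K, (θ : K) = α := ⟨⟨α, int_alpha hα⟩, rfl⟩
  have key := discr_of_gen h2 θ
    (linInd_int hp.pos hα _ 0 1 one_ne_zero (by rw [hθ]; simp)) (by
      intro x
      obtain ⟨t, u, hd, hx⟩ := coords h2 hp hα (x : K) x.2
      have hpz : (p : ℤ) % 4 = 1 := by omega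
      have ht : t % 2 = 0 ∧ u % 2 = 0 := by
        obtain ⟨c, hc⟩ := hd
        obtain ⟨q, hq⟩ : ∃ q : ℤ, (p : ℤ) = 4 * q + 1 := ⟨(p : ℤ) / 4, by omega⟩
        rw [hq] at hc
        rcases Int.emod_two_eq_zero_or_one t with h | h <;>
          rcases Int.emod_two_eq_zero_or_one u with h' | h'
        · exact ⟨h, h'⟩
        · exfalso
          obtain ⟨t', rfl⟩ : ∃ t', t = 2 * t' := ⟨t / 2, by omega⟩
          obtain ⟨u', rfl⟩ : ∃ u', u = 2 * u' + 1 := ⟨u / 2, by omega⟩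
          have : 4 * (t' ^ 2 + q * (2 * u' + 1) ^ 2 + u' ^ 2 + u' - c) = -1 := by linear_combination hc
          omega
        · exfalso
          obtain ⟨t', rfl⟩ : ∃ t', t = 2 * t' + 1 := ⟨t / 2, by omega⟩
          obtain ⟨u', rfl⟩ : ∃ u', u = 2 * u' := ⟨u / 2, by omega⟩
          have : 4 * (t' ^ 2 + t' + 4 * q * u' ^ 2 + u' ^ 2 - c) = -1 := by linear_combination hc
          omega
        · exfalso
          obtain ⟨t', rfl⟩ : ∃ t', t = 2 * t' + 1 := ⟨t / 2, by omega⟩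
          obtain ⟨u', rfl⟩ : ∃ u', u = 2 * u' + 1 := ⟨u / 2, by omega⟩
          have : 4 * (t' ^ 2 + t' + q * (2 * u' + 1) ^ 2 + u' ^ 2 + u' - c) = -2 := by
            linear_combination hc
          omega
      obtain ⟨t', rfl⟩ : ∃ t', t = 2 * t' := ⟨t / 2, by omega⟩
      obtain ⟨u', rfl⟩ : ∃ u', u = 2 * u' := ⟨u / 2, by omega⟩
      refine ⟨t', u', ?_⟩
      apply RingOfIntegers.ext
      have e1 : (((t' : 𝓞 K) + (u' : 𝓞 K) * θ : 𝓞 K) : K) = t' + u' * α := by
        rw [coe_lin, hθ]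
      rw [e1]
      have : (2 : K) ≠ 0 := two_ne_zero
      apply mul_left_cancel₀ this
      rw [hx]
      push_cast
      ring)
  rw [hθ, hα] at key
  have t1 := trace_eq h2 hp.pos hα (-(p : ℚ)) 0
  have t2 := trace_eq h2 hp.pos hα 0 1
  have e5 : algebraMap ℚ K (-(p : ℚ)) + algebraMap ℚ K 0 * α = -(p : K) := by simp
  have e6 : algebraMap ℚ K 0 + algebraMap ℚ K 1 * α = α := by simp
  rw [e5] at t1
  rw [e6] at t2
  rw [t2, t1] at key
  have h6 : ((discr K : ℤ) : ℚ) = ((-(4 * p) : ℤ) : ℚ) := by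
    rw [key]; push_cast; ring
  exact_mod_cast h6

/-- `p ≡ 3 (mod 4)`: the discriminant is `-p`. -/
theorem discr_three (h2 : finrank ℚ K = 2) (hp : p.Prime) (hα : α ^ 2 = -(p : K))
    (h4 : p % 4 = 3) : discr K = -p := by
  obtain ⟨θ, hθ⟩ : ∃ θ : 𝓞 K, (θ : K) = (1 + α) / 2 := ⟨⟨_, int_omega hα h4⟩, rfl⟩
  have hθ' : (1 + α) / 2 = algebraMap ℚ K (1 / 2) + algebraMap ℚ K (1 / 2) * α := by
    simp only [map_div₀, map_one, map_ofNat]
    ring
  have key := discr_of_gen h2 θ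
    (linInd_int hp.pos hα _ (1 / 2) (1 / 2) (by norm_num) (by rw [hθ, hθ'])) (by
      intro x
      obtain ⟨t, u, hd, hx⟩ := coords h2 hp hα (x : K) x.2
      have hpz : (p : ℤ) % 4 = 3 := by omega
      have ht : (t - u) % 2 = 0 := by
        obtain ⟨c, hc⟩ := hd
        obtain ⟨q, hq⟩ : ∃ q : ℤ, (p : ℤ) = 4 * q + 3 := ⟨(p : ℤ) / 4, by omega⟩
        rw [hq] at hc
        rcases Int.emod_two_eq_zero_or_one t with h | h <;>
          rcases Int.emod_two_eq_zero_or_one u with h' | h'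
        · omega
        · exfalso
          obtain ⟨t', rfl⟩ : ∃ t', t = 2 * t' := ⟨t / 2, by omega⟩
          obtain ⟨u', rfl⟩ : ∃ u', u = 2 * u' + 1 := ⟨u / 2, by omega⟩
          have : 4 * (t' ^ 2 + q * (2 * u' + 1) ^ 2 + 3 * u' ^ 2 + 3 * u' - c) = -3 := by
            linear_combination hc
          omega
        · exfalso
          obtain ⟨t', rfl⟩ : ∃ t', t = 2 * t' + 1 := ⟨t / 2, by omega⟩
          obtain ⟨u', rfl⟩ : ∃ u', u = 2 * u' := ⟨u / 2, by omega⟩
          have : 4 * (t' ^ 2 + t' + 4 * q * u' ^ 2 + 3 * u' ^ 2 - c) = -1 := by linear_combination hc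
          omega
        · omega
      obtain ⟨m, hm⟩ : ∃ m, t = 2 * m + u := ⟨(t - u) / 2, by omega⟩
      subst hm
      refine ⟨m, u, ?_⟩
      apply RingOfIntegers.ext
      have e1 : (((m : 𝓞 K) + (u : 𝓞 K) * θ : 𝓞 K) : K) =
          m + u * ((1 + α) / 2) := by
        rw [coe_lin, hθ]
      rw [e1]
      have : (2 : K) ≠ 0 := two_ne_zero
      apply mul_left_cancel₀ this
      rw [hx]
      push_cast
      field_simp
      ring)
  rw [hθ] at key
  have e2 : ((1 + α) / 2) ^ 2 = algebraMap ℚ K ((1 - p) / 4) + algebraMap ℚ K (1 / 2) * α := by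
    simp only [map_div₀, map_one, map_ofNat, map_sub, map_natCast]
    linear_combination hα / 4
  rw [e2, hθ', trace_eq h2 hp.pos hα, trace_eq h2 hp.pos hα] at key
  have h6 : ((discr K : ℤ) : ℚ) = ((-p : ℤ) : ℚ) := by
    rw [key]; push_cast; ring
  exact_mod_cast h6

end

end Pool.Agent.R441.CN
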