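import Pool.Agent.R441.CN.B

/-! The residue of the Dedekind zeta function of `ℚ(√-p)`. -/

set_option autoImplicit false

namespace Pool.Agent.R441.CN

open NumberField Module NumberField.InfinitePlace NumberField.Units

section
variable {K : Type*} [Field K] [NumberField K] {p : ℕ} {α : K}

open scoped Classical in
lemma nrReal (hp : 0 < p) (hα : α ^ 2 = -(p : K)) : nrRealPlaces K = 0 := by
  rw [Fintype.card_eq_zero_iff]
  refine ⟨fun ⟨w, hw⟩ => ?_⟩
  have h1 := congrArg (embedding_of_isReal hw) hα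
  rw [map_pow, map_neg, map_natCast] at h1
  have h2 : (0 : ℝ) < p := by exact_mod_cast hp
  nlinarith [sq_nonneg (embedding_of_isReal hw α)]

lemma nrComplex (h2 : finrank ℚ K = 2) (hp : 0 < p) (hα : α ^ 2 = -(p : K)) :
    nrComplexPlaces K = 1 := by
  have h := card_add_two_mul_card_eq_rank K
  rw [nrReal hp hα, h2] at h
  omega

lemma card_places (h2 : finrank ℚ K = 2) (hp : 0 < p) (hα : α ^ 2 = -(p : K)) :
    Fintype.card (InfinitePlace K) = 1 := by
  rw [card_eq_nrRealPlaces_add_nrComplexPlaces, nrReal hp hα, nrComplex h2 hp hα]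

open scoped Classical in
lemma reg_one (h2 : finrank ℚ K = 2) (hp : 0 < p) (hα : α ^ 2 = -(p : K)) : regulator K = 1 := by
  have hc := card_places h2 hp hα
  obtain ⟨w', hw'⟩ := Fintype.card_eq_one_iff.1 hc
  have hr : rank K = 0 := by rw [rank, hc]
  have hE : IsEmpty {w // w ≠ w'} := ⟨fun ⟨w, hw⟩ => hw (hw' w)⟩
  have hF : IsEmpty (Fin (rank K)) := by rw [hr]; infer_instance
  rw [regulator_eq_det K w' (Equiv.equivOfIsEmpty _ _), Matrix.det_isEmpty]
  simp

lemma unit_pm (h2 : finrank ℚ K = 2) (hp : p.Prime) (h5 : 5 ≤ p) (hα : α ^ 2 = -(p : K))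
    (x : (𝓞 K)ˣ) : x = 1 ∨ x = -1 := by
  obtain ⟨t, u, hd, hx⟩ := coords h2 hp hα ((x : 𝓞 K) : K) (x : 𝓞 K).2
  have h3 := norm_coords h2 hp hα _ t u hx
  have h6 : Algebra.norm ℚ ((x : 𝓞 K) : K) = 1 := by
    have h7 : IsUnit (Algebra.norm ℤ (x : 𝓞 K)) := x.isUnit.map (Algebra.norm ℤ)
    have h8 : ((Algebra.norm ℤ (x : 𝓞 K) : ℤ) : ℚ) = Algebra.norm ℚ ((x : 𝓞 K) : K) :=
      Algebra.coe_norm_int _
    rw [← h8] at h3 ⊢
    rcases Int.isUnit_iff.1 h7 with h | h
    · rw [h]; norm_num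
    · rw [h] at h3
      exfalso
      have : (0 : ℚ) ≤ t ^ 2 + p * u ^ 2 := by positivity
      rw [← h3] at this
      norm_num at this
  rw [h6] at h3
  have h9 : t ^ 2 + (p : ℤ) * u ^ 2 = 4 := by
    have : ((t ^ 2 + p * u ^ 2 : ℤ) : ℚ) = ((4 : ℤ) : ℚ) := by
      push_cast; rw [← h3]; norm_num
    exact_mod_cast this
  have hu : u = 0 := by
    by_contra hu
    have h10 : 1 ≤ u ^ 2 := by
      have := sq_pos_of_ne_zero (R := ℤ) hu
      omega
    have h11 : (5 : ℤ) ≤ p := by exact_mod_cast h5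
    nlinarith [sq_nonneg t]
  rw [hu] at h9 hx
  have ht : t = 2 ∨ t = -2 := by
    have : (t - 2) * (t + 2) = 0 := by linear_combination h9
    rcases mul_eq_zero.1 this with h | h
    · left; omega
    · right; omega
  have h20 : (2 : K) ≠ 0 := two_ne_zero
  rcases ht with rfl | rfl
  · left
    apply Units.ext
    apply RingOfIntegers.ext
    apply mul_left_cancel₀ h20
    rw [hx]
    simp
  · right
    apply Units.ext
    apply RingOfIntegers.ext
    apply mul_left_cancel₀ h20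
    rw [hx]
    simp

lemma tors (h2 : finrank ℚ K = 2) (hp : p.Prime) (h5 : 5 ≤ p) (hα : α ^ 2 = -(p : K)) :
    torsionOrder K = 2 := by
  have h1 : torsion K = ⊤ := by
    rw [eq_top_iff]
    intro x _
    rw [torsion, CommGroup.mem_torsion, isOfFinOrder_iff_pow_eq_one]
    refine ⟨2, by norm_num, ?_⟩
    rcases unit_pm h2 hp h5 hα x with h | h <;> rw [h] <;> simp
  rw [torsionOrder, h1, Nat.card_eq_two_iff]
  refine ⟨⟨1, Subgroup.mem_top _⟩, ⟨-1, Subgroup.mem_top _⟩, ?_, ?_⟩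
  · intro h
    have h3 := congrArg (fun y : (⊤ : Subgroup (𝓞 K)ˣ) => (((y : (𝓞 K)ˣ) : 𝓞 K) : K)) h
    simp at h3
    have h4 : (1 : K) = -1 := by simpa using h3
    have h6 : (2 : K) = 0 := by linear_combination h4
    exact two_ne_zero h6
  · ext x
    simp only [Set.mem_insert_iff, Set.mem_singleton_iff, Set.mem_univ, iff_true]
    rcases unit_pm h2 hp h5 hα (x : (𝓞 K)ˣ) with h | h
    · left; exact Subtype.ext h
    · right; exact Subtype.ext h

theorem residue_formula (h2 : finrank ℚ K = 2) (hp : p.Prime) (h5 : 5 ≤ p) (hα : α ^ 2 = -(p : K)) :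
    dedekindZeta_residue K = Real.pi * classNumber K / Real.sqrt |discr K| := by
  rw [dedekindZeta_residue_def, nrReal hp.pos hα, nrComplex h2 hp.pos hα, reg_one h2 hp.pos hα,
    tors h2 hp h5 hα]
  push_cast
  have h3 : Real.sqrt |(discr K : ℝ)| ≠ 0 := by
    rw [Real.sqrt_ne_zero']
    exact abs_pos.2 (by exact_mod_cast discr_ne_zero K)
  field_simp

end

end Pool.Agent.R441.CN
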