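import Pool.Agent.R441.CN.C
import Pool.Agent.Y125.XT.Res

/-! The residue as an `L`-value; the class number. -/

set_option autoImplicit false

namespace Pool.Agent.R441.CN

open NumberField Module H300.HW IsCyclotomicExtension.Rat Pool.Agent.Y125.XT DirichletCharacter
open IntermediateField

section
variable (n : ℕ) [NeZero n] (L : Type) [Field L] [NumberField L] [IsCyclotomicExtension {n} ℚ L]

lemma Lp_prim (χ : DirichletCharacter ℂ n) (hχ : χ.IsPrimitive) (s : ℂ) :
    Lp n χ s = DirichletCharacter.LFunction χ s := by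
  have key : ∀ (m : ℕ) [NeZero m] (hm : m ∣ n) (ψ : DirichletCharacter ℂ m), m = n →
      changeLevel hm ψ = χ → DirichletCharacter.LFunction ψ s = DirichletCharacter.LFunction χ s := by
    intro m _ hm ψ e h
    subst e
    rw [changeLevel_self] at h
    rw [h]
  exact key _ _ _ hχ (changeLevel_primitiveCharacter χ)

open scoped Classical in
theorem residue_L {p : ℕ} (hp : 0 < p) (α : L) (hα : α ^ 2 = -(p : L)) (χ : DirichletCharacter ℂ n)
    (hprim : χ.IsPrimitive) (hne : χ ≠ 1)
    (hχ : ∀ σ : Gal(L/ℚ), σ α = α → χ (galEquivZMod n L σ : ZMod n) = 1) :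
    finrank ℚ ℚ⟮α⟯ = 2 ∧
      ((dedekindZeta_residue ℚ⟮α⟯ : ℝ) : ℂ) = DirichletCharacter.LFunction χ 1 := by
  have : IsGalois ℚ L := IsCyclotomicExtension.isGalois {n} ℚ L
  have hmem : χ ∈ YY n L ℚ⟮α⟯ := by
    rw [mem_YY]
    intro σ hσ
    apply hχ
    exact (IntermediateField.mem_fixingSubgroup_iff _ _).1 hσ α (mem_adjoin_simple_self ℚ α)
  have hle : finrank ℚ ℚ⟮α⟯ ≤ 2 := by
    have hint : IsIntegral ℚ α := Algebra.IsIntegral.isIntegral α
    rw [adjoin.finrank hint]
    have hd : minpoly ℚ α ∣ Polynomial.X ^ 2 + Polynomial.C (p : ℚ) := by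
      apply minpoly.dvd
      simp [hα]
    have hm : (Polynomial.X ^ 2 + Polynomial.C (p : ℚ)).Monic := by monicity!
    have := Polynomial.natDegree_le_of_dvd hd hm.ne_zero
    have h3 : (Polynomial.X ^ 2 + Polynomial.C (p : ℚ)).natDegree = 2 := by compute_degree!
    omega
  have hcard : Nat.card (YY n L ℚ⟮α⟯) = finrank ℚ ℚ⟮α⟯ := by
    rw [card_YY, ← IntermediateField.finrank_eq_fixingSubgroup_index]
  have hge : 2 ≤ Nat.card (YY n L ℚ⟮α⟯) := by
    rw [Nat.card_eq_fintype_card]
    have h2 : 1 < Fintype.card (YY n L ℚ⟮α⟯) := by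
      rw [Fintype.one_lt_card_iff]
      exact ⟨⟨χ, hmem⟩, 1, fun h => hne (congrArg Subtype.val h)⟩
    exact h2
  have h2 : finrank ℚ ℚ⟮α⟯ = 2 := by omega
  refine ⟨h2, ?_⟩
  rw [residue_eq n L ℚ⟮α⟯]
  have hun : (Finset.univ : Finset (YY n L ℚ⟮α⟯)).erase 1 = {⟨χ, hmem⟩} := by
    symm
    apply Finset.eq_of_subset_of_card_le
    · intro x hx
      rw [Finset.mem_singleton] at hx
      rw [hx, Finset.mem_erase]
      exact ⟨fun h => hne (congrArg Subtype.val h), Finset.mem_univ _⟩
    · rw [Finset.card_erase_of_mem (Finset.mem_univ _), Finset.card_univ, Finset.card_singleton,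
        ← Nat.card_eq_fintype_card, hcard, h2]
  rw [hun, Finset.prod_singleton, Lp_prim n χ hprim]

/-- the class number of a quadratic field containing `√-p`, as an `L`-value -/
theorem classNumber_L {p : ℕ} (hp : p.Prime) (h5 : 5 ≤ p) (α : L) (hα : α ^ 2 = -(p : L))
    (χ : DirichletCharacter ℂ n) (hprim : χ.IsPrimitive) (hne : χ ≠ 1)
    (hχ : ∀ σ : Gal(L/ℚ), σ α = α → χ (galEquivZMod n L σ : ZMod n) = 1)
    (K : Type) [Field K] [NumberField K] (h2 : finrank ℚ K = 2) (β : K) (hβ : β ^ 2 = -(p : K)) :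
    ((Real.pi * classNumber K / Real.sqrt |discr K| : ℝ) : ℂ) = DirichletCharacter.LFunction χ 1 := by
  obtain ⟨h3, h4⟩ := residue_L n L hp.pos α hα χ hprim hne hχ
  set γ : ℚ⟮α⟯ := ⟨α, mem_adjoin_simple_self ℚ α⟩ with hγ
  have hγ2 : γ ^ 2 = -(p : ℚ⟮α⟯) := by
    apply Subtype.ext
    push_cast
    exact hα
  rw [residue_formula h3 hp h5 hγ2] at h4
  rw [← h4]
  -- isomorphism
  have hbij : ∃ f : K →ₐ[ℚ] ℚ⟮α⟯, Function.Bijective f := by
    set pb : PowerBasis ℚ ℚ⟮α⟯ := IntermediateField.adjoin.powerBasis (Algebra.IsIntegral.isIntegral α)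
    have hg : Polynomial.aeval β (minpoly ℚ pb.gen) = 0 := by
      have hgen : pb.gen = γ := by
        rw [adjoin.powerBasis_gen]
        rfl
      have hmin : minpoly ℚ pb.gen = Polynomial.X ^ 2 + Polynomial.C (p : ℚ) := by
        rw [hgen]
        symm
        apply minpoly.eq_of_irreducible_of_monic
        · have hm : (Polynomial.X ^ 2 + Polynomial.C (p : ℚ)).Monic := by monicity!
          have h3 : (Polynomial.X ^ 2 + Polynomial.C (p : ℚ)).natDegree = 2 := by compute_degree!
          rw [Polynomial.irreducible_iff_roots_eq_zero_of_degree_le_three (by omega) (by omega)]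
          rw [Multiset.eq_zero_iff_forall_notMem]
          intro q hq
          rw [Polynomial.mem_roots hm.ne_zero, Polynomial.IsRoot.def] at hq
          simp at hq
          have : (0 : ℚ) < p := by exact_mod_cast hp.pos
          nlinarith [sq_nonneg q]
        · simp [hγ2]
        · monicity!
      rw [hmin]
      simp [hβ]
    have hf := pb.lift β hg
    have hinj : Function.Injective hf := hf.toRingHom.injective
    have hsur : Function.Surjective hf := by
      have := LinearMap.injective_iff_surjective_of_finrank_eq_finrank (f := hf.toLinearMap) (by rw [h2, h3])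
      exact this.1 hinj
    let e := AlgEquiv.ofBijective hf ⟨hinj, hsur⟩
    exact ⟨e.symm.toAlgHom, e.symm.bijective⟩
  obtain ⟨f, hf⟩ := hbij
  let e : K ≃ₐ[ℚ] ℚ⟮α⟯ := AlgEquiv.ofBijective f hf
  have hd : discr K = discr ℚ⟮α⟯ := discr_eq_discr_of_algEquiv K e
  have hc : classNumber K = classNumber ℚ⟮α⟯ := by
    have eR : 𝓞 K ≃+* 𝓞 ℚ⟮α⟯ := RingOfIntegers.mapRingEquiv e.toRingEquiv
    exact Fintype.card_congr (ClassGroup.mulEquiv eR).toEquiv
  rw [hd, hc]

end

end Pool.Agent.R441.CN
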