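import Mathlib

/-! Quadratic Gauss sums in a field of characteristic zero. -/

set_option autoImplicit false

namespace Pool.Agent.R441.CN

open AddChar MulChar

section
variable {L : Type*} [Field L] [CharZero L] {p : ℕ} [Fact p.Prime]

/-- the quadratic character with values in `L` -/
noncomputable def qc (p : ℕ) [Fact p.Prime] (L : Type*) [Field L] : MulChar (ZMod p) L :=
  (quadraticChar (ZMod p)).ringHomComp (Int.castRingHom L)

lemma qc_apply (a : ZMod p) : qc p L a = ((quadraticChar (ZMod p) a : ℤ) : L) := rfl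

lemma qc_quad : (qc p L).IsQuadratic := by
  intro a
  rw [qc_apply]
  rcases (quadraticChar_isQuadratic (F := ZMod p)) a with h | h | h <;> rw [h] <;> simp

lemma qc_ne_one (hp2 : p ≠ 2) : qc p L ≠ 1 := by
  intro h
  have hc : ringChar (ZMod p) ≠ 2 := by rwa [ZMod.ringChar_zmod_n]
  obtain ⟨a, ha⟩ := quadraticChar_exists_neg_one (F := ZMod p) hc
  have h1 := DFunLike.congr_fun h a
  have hu : IsUnit a := by
    by_contra hu
    rw [MulChar.map_nonunit _ hu] at ha
    norm_num at ha
  rw [qc_apply, ha, MulChar.one_apply hu] at h1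
  have h2 : (2 : L) = 0 := by
    push_cast at h1
    linear_combination -h1
  exact two_ne_zero h2

/-- the Gauss sum -/
noncomputable def gs {η : L} (hη : IsPrimitiveRoot η p) : L :=
  gaussSum (qc p L) (zmodChar p hη.pow_eq_one)

lemma gs_sq (hp2 : p ≠ 2) {η : L} (hη : IsPrimitiveRoot η p) :
    gs hη ^ 2 = ((quadraticChar (ZMod p) (-1) : ℤ) : L) * p := by
  have h : gaussSum (qc p L) (zmodChar p hη.pow_eq_one) ^ 2 = qc p L (-1) * Fintype.card (ZMod p) :=
    gaussSum_sq (qc_ne_one (L := L) hp2) qc_quad (zmodChar_primitive_of_primitive_root p hη)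
  rw [gs, h, qc_apply, ZMod.card]

lemma gs_map {η : L} (hη : IsPrimitiveRoot η p) (σ : L →+* L) (k : ℕ) (hk : ¬ p ∣ k)
    (hσ : σ η = η ^ k) : σ (gs hη) = ((quadraticChar (ZMod p) (k : ZMod p) : ℤ) : L) * gs hη := by
  have hk0 : (k : ZMod p) ≠ 0 := by
    rwa [Ne, ZMod.natCast_eq_zero_iff]
  have h1 := gaussSum_mulShift (qc p L) (zmodChar p hη.pow_eq_one) (Units.mk0 (k : ZMod p) hk0)
  have h2 : σ (gs hη) = gaussSum (qc p L) (mulShift (zmodChar p hη.pow_eq_one) (k : ZMod p)) := by
    unfold gs gaussSum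
    rw [map_sum]
    refine Finset.sum_congr rfl fun a _ => ?_
    rw [map_mul, qc_apply, map_intCast, mulShift_apply, zmodChar_apply, map_pow, hσ, ← pow_mul]
    congr 1
    have : (k : ZMod p) * a = ((k * a.val : ℕ) : ZMod p) := by
      push_cast; rw [ZMod.natCast_zmod_val]
    rw [this, zmodChar_apply']
  rw [h2]
  have h3 : qc p L (k : ZMod p) * qc p L (k : ZMod p) = 1 := by
    rw [qc_apply]
    rcases quadraticChar_dichotomy hk0 with h | h <;> rw [h] <;> norm_num
  have h4 : gs hη = qc p L (k : ZMod p) * gaussSum (qc p L) (mulShift (zmodChar p hη.pow_eq_one)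
      (k : ZMod p)) := h1.symm
  rw [h4, ← qc_apply, ← mul_assoc, h3, one_mul]

end

end Pool.Agent.R441.CN
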