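import Pool.Agent.R441.CN.D
import Pool.Agent.R441.CN.E
import Pool.Agent.R343.HalfSum

/-! The value at `1` of the `L`-function of an odd real primitive character; class numbers. -/

set_option autoImplicit false

namespace Pool.Agent.R441.CN

open Complex HurwitzZeta ZMod Finset Pool.Agent.H916R2 DirichletCharacter
open scoped ZMod

section
variable {n : ℕ} [NeZero n]

lemma dft_chi (χ : DirichletCharacter ℂ n) (hprim : χ.IsPrimitive) (hodd : χ.Odd)
    (hinv : χ⁻¹ = χ) : (ZMod.dft fun j => χ j) = fun k => -(gaussSum χ stdAddChar) * χ k := by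
  funext k
  have h := hprim.fourierTransform_eq_inv_mul_gaussSum k
  rw [hinv, hodd.eval_neg] at h
  rw [h]; ring

lemma gauss_sq (χ : DirichletCharacter ℂ n) (hprim : χ.IsPrimitive) (hodd : χ.Odd)
    (hinv : χ⁻¹ = χ) : (gaussSum χ stdAddChar) ^ 2 = -(n : ℂ) := by
  have h1 := dft_chi χ hprim hodd hinv
  have h2 := ZMod.dft_dft (fun j => χ j)
  rw [h1] at h2
  have h3 : (ZMod.dft fun k => -(gaussSum χ stdAddChar) * χ k) =
      fun k => -(gaussSum χ stdAddChar) * (ZMod.dft fun j => χ j) k := by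
    funext k
    exact congrFun ((ZMod.dft (N := n) (E := ℂ)).map_smul (-(gaussSum χ stdAddChar))
      (fun j => χ j)) k
  rw [h3, h1] at h2
  have h5 := congrFun h2 1
  simp only [smul_eq_mul] at h5
  rw [hodd.eval_neg, map_one] at h5
  linear_combination h5

lemma gauss_norm (χ : DirichletCharacter ℂ n) (hprim : χ.IsPrimitive) (hodd : χ.Odd)
    (hinv : χ⁻¹ = χ) : ‖gaussSum χ stdAddChar‖ = Real.sqrt n := by
  have h := congrArg norm (gauss_sq χ hprim hodd hinv)
  rw [norm_pow, norm_neg, Complex.norm_natCast] at h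
  rw [← h, Real.sqrt_sq (norm_nonneg _)]

theorem L_abs (χ : DirichletCharacter ℂ n) (hprim : χ.IsPrimitive) (hodd : χ.Odd)
    (hinv : χ⁻¹ = χ) (h0 : χ 0 = 0) :
    Real.pi * ‖∑ j : ZMod n, χ j * (saw j : ℂ)‖ =
      2 * n * Real.sqrt n * ‖DirichletCharacter.LFunction χ 1‖ := by
  have hLF := ZMod.LFunction_dft (fun j : ZMod n => χ j) (s := 1) (Or.inl h0)
  have hm : (n : ℂ) ≠ 0 := Nat.cast_ne_zero.mpr (NeZero.ne n)
  have hlhs : ZMod.LFunction (ZMod.dft fun j : ZMod n => χ j) 1 =
      (-(gaussSum χ stdAddChar)) * DirichletCharacter.LFunction χ 1 := by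
    rw [dft_chi χ hprim hodd hinv]
    unfold DirichletCharacter.LFunction ZMod.LFunction
    simp only [mul_sum]
    refine sum_congr rfl fun j _ => ?_
    ring
  have hrhs : ∑ j : ZMod n, χ j * expZeta (toAddCircle (-j)) 1 =
      (-I) * ∑ j : ZMod n, χ j * sinZeta (toAddCircle j) 1 := by
    have h1 : ∑ j : ZMod n, χ j * expZeta (toAddCircle (-j)) 1 =
        ∑ j : ZMod n, (- χ j) * expZeta (toAddCircle j) 1 := by
      rw [← Equiv.sum_comp (Equiv.neg (ZMod n))]
      refine sum_congr rfl fun j _ => ?_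
      simp only [Equiv.neg_apply, neg_neg]
      rw [DirichletCharacter.Odd.eval_neg (ψ := χ) j hodd]
    have h2 : 2 * ∑ j : ZMod n, χ j * expZeta (toAddCircle (-j)) 1 =
        2 * ((-I) * ∑ j : ZMod n, χ j * sinZeta (toAddCircle j) 1) := by
      rw [two_mul]
      nth_rewrite 2 [h1]
      rw [← sum_add_distrib, mul_sum, mul_sum]
      refine sum_congr rfl fun j _ => ?_
      rw [sinZeta_eq, map_neg]
      have hI : (2 : ℂ) * I ≠ 0 := by simp
      field_simp
      ring
    exact mul_left_cancel₀ two_ne_zero h2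
  rw [hlhs, hrhs] at hLF
  have h5 : ∑ j : ZMod n, χ j * sinZeta (toAddCircle j) 1 =
      -(Real.pi / (2 * n)) * ∑ j : ZMod n, χ j * (saw j : ℂ) := by
    rw [mul_sum]
    refine sum_congr rfl fun j _ => ?_
    rw [sinZeta_toAddCircle]
    ring
  rw [h5] at hLF
  have h6 := congrArg norm hLF
  rw [norm_mul, norm_neg, gauss_norm χ hprim hodd hinv, norm_mul, norm_neg, Complex.norm_I, one_mul,
    norm_mul, norm_neg] at h6
  have h7 : ‖(Real.pi / (2 * n) : ℂ)‖ = Real.pi / (2 * n) := by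
    have : (Real.pi / (2 * n) : ℂ) = ((Real.pi / (2 * n) : ℝ) : ℂ) := by push_cast; ring
    rw [this, Complex.norm_real, Real.norm_of_nonneg (by positivity)]
  rw [h7] at h6
  have hn0 : (n : ℝ) ≠ 0 := Nat.cast_ne_zero.mpr (NeZero.ne n)
  have h8 : 2 * n * Real.sqrt n * ‖DirichletCharacter.LFunction χ 1‖ =
      2 * n * (Real.sqrt n * ‖DirichletCharacter.LFunction χ 1‖) := by ring
  rw [h8, h6]
  field_simp

end

end Pool.Agent.R441.CN
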