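import Pool.Agent.R441.CN.F

/-! Dirichlet's class number formula for `ℚ(√-p)`, `p ≡ 3 (mod 4)`. -/

set_option autoImplicit false

namespace Pool.Agent.R441.CN

open Complex Finset Pool.Agent.H916R2 DirichletCharacter NumberField Module
open Pool.Agent.H379R2.W Pool.Agent.R343.CFP H300.HW IsCyclotomicExtension.Rat

theorem exists_cyc (n : ℕ) [NeZero n] :
    ∃ (L : Type) (_ : Field L) (_ : NumberField L), IsCyclotomicExtension {n} ℚ L := by
  have : NeZero ((n : ℕ) : ℚ) := ⟨by exact_mod_cast (NeZero.ne n)⟩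
  have h1 : IsCyclotomicExtension {n} ℚ (CyclotomicField n ℚ) :=
    CyclotomicField.isCyclotomicExtension n ℚ
  have h2 : NumberField (CyclotomicField n ℚ) := IsCyclotomicExtension.numberField {n} ℚ _
  refine ⟨CyclotomicField n ℚ, inferInstance, h2, ?_⟩
  convert h1

section
variable {p : ℕ} [Fact p.Prime]

lemma jchar_prim (h4 : p % 4 = 3) : (jchar p).IsPrimitive := by
  have hne := jchar_ne_one p h4
  have h1 := (jchar p).conductor_dvd_level
  rcases (Nat.dvd_prime (Fact.out : p.Prime)).1 h1 with h | h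
  · exact absurd ((eq_one_iff_conductor_eq_one).2 h) hne
  · exact h

lemma jchar_leg (a : ZMod p) : jchar p a = ((quadraticChar (ZMod p) a : ℤ) : ℂ) := by
  have h : jchar p a = ((jacobiSym (a.val : ℤ) p : ℤ) : ℂ) := rfl
  rw [h, ← jacobiSym.legendreSym.to_jacobiSym, legendreSym]
  congr 2
  push_cast
  rw [ZMod.natCast_zmod_val]

lemma jchar_inv : (jchar p)⁻¹ = jchar p := by
  have h := jchar_sq p
  rw [sq] at h
  exact inv_eq_of_mul_eq_one_left h

lemma saw_sum (h4 : p % 4 = 3) : ∑ j : ZMod p, jchar p j * (saw j : ℂ) = ((2 * T p : ℤ) : ℂ) := by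
  have e1 : ∑ j : ZMod p, jchar p j * (saw j : ℂ) =
      ∑ r ∈ range p, (((2 * (r : ℤ) - p) * jacobiSym (r : ℤ) p : ℤ) : ℂ) := by
    apply Finset.sum_nbij' (fun x : ZMod p => x.val) (fun i : ℕ => (i : ZMod p))
    · intro x _
      exact mem_range.2 (ZMod.val_lt x)
    · intro i _
      exact mem_univ _
    · intro x _
      exact ZMod.natCast_zmod_val x
    · intro i hi
      exact ZMod.val_natCast_of_lt (mem_range.1 hi)
    · intro x _
      have h4 : jchar p x = ((jacobiSym (x.val : ℤ) p : ℤ) : ℂ) := rfl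
      rw [h4]
      unfold saw
      split_ifs with hx
      · rw [hx, ZMod.val_zero]
        have : jacobiSym ((0 : ℕ) : ℤ) p = 0 := by
          rw [Nat.cast_zero]
          exact jacobiSym.zero_left (Fact.out : p.Prime).one_lt
        rw [this]
        simp
      · push_cast
        ring
  rw [e1, ← Int.cast_sum]
  congr 1
  have e2 : ∀ r ∈ range p, (2 * (r : ℤ) - p) * jacobiSym (r : ℤ) p =
      2 * ((r : ℤ) * jacobiSym (r : ℤ) p) - p * jacobiSym (r : ℤ) p := by
    intro r _
    ring
  rw [Finset.sum_congr rfl e2, Finset.sum_sub_distrib, ← Finset.mul_sum, ← Finset.mul_sum,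
    sum_jacobi_zero p h4, mul_zero, sub_zero]
  rfl

theorem classNumber_three_aux (L : Type) [Field L] [NumberField L] [IsCyclotomicExtension {p} ℚ L]
    (h5 : 5 ≤ p) (h4 : p % 4 = 3) (K : Type) [Field K] [NumberField K]
    (h2 : finrank ℚ K = 2) (β : K) (hβ : β ^ 2 = -(p : K)) :
    (p : ℤ) * classNumber K = - T p := by
  have hp : p.Prime := Fact.out
  have hη := IsCyclotomicExtension.zeta_spec p ℚ L
  set η := IsCyclotomicExtension.zeta p ℚ L with hηd
  have hsq := gs_sq (by omega) hη
  have hm1 : quadraticChar (ZMod p) (-1) = -1 := by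
    have h := legendreSym.at_neg_one (p := p) (by omega)
    rw [ZMod.χ₄_nat_three_mod_four h4, legendreSym] at h
    simpa using h
  rw [hm1] at hsq
  have hα : (gs hη) ^ 2 = -(p : L) := by rw [hsq]; push_cast; ring
  have hχ : ∀ σ : Gal(L/ℚ), σ (gs hη) = gs hη →
      jchar p (galEquivZMod p L σ : ZMod p) = 1 := by
    intro σ hσ
    set k := (galEquivZMod p L σ).val.val with hk
    have hkp : ¬ p ∣ k := by
      intro h
      have h1 : ((galEquivZMod p L σ : (ZMod p)ˣ) : ZMod p) = 0 := by
        rw [← ZMod.natCast_zmod_val ((galEquivZMod p L σ : (ZMod p)ˣ) : ZMod p), ← hk]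
        exact (ZMod.natCast_eq_zero_iff _ _).2 h
      exact (galEquivZMod p L σ).ne_zero h1
    have h6 : σ η = η ^ k := galEquivZMod_apply_of_pow_eq p L σ hη.pow_eq_one
    have h7 := gs_map hη (σ : L →+* L) k hkp h6
    have h8 : (σ : L →+* L) (gs hη) = gs hη := hσ
    rw [h8] at h7
    have hg0 : gs hη ≠ 0 := by
      intro h0
      rw [h0] at hα
      have : (p : L) = 0 := by
        have h9 : (0 : L) = -(p : L) := by rw [← hα]; ring
        linear_combination h9
      exact hp.ne_zero (by exact_mod_cast this)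
    have h9 : ((quadraticChar (ZMod p) (k : ZMod p) : ℤ) : L) = 1 := by
      apply mul_right_cancel₀ hg0
      rw [← h7, one_mul]
    have h10 : quadraticChar (ZMod p) (k : ZMod p) = 1 := by exact_mod_cast h9
    rw [jchar_leg]
    have h11 : ((galEquivZMod p L σ : (ZMod p)ˣ) : ZMod p) = (k : ZMod p) := by
      rw [hk, ZMod.natCast_zmod_val]
    rw [h11, h10]
    simp
  have h0 : (jchar p) 0 = 0 := by
    rw [jchar_leg, MulChar.map_zero]; simp
  have hL1 := classNumber_L p L hp h5 (gs hη) hα (jchar p) (jchar_prim h4) (jchar_ne_one p h4) hχ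
    K h2 β hβ
  have habs := L_abs (jchar p) (jchar_prim h4) (jchar_odd p h4) jchar_inv h0
  rw [← hL1, saw_sum h4, discr_three h2 hp hβ h4, Complex.norm_real, Complex.norm_intCast] at habs
  have hT := T_nonpos p h4 hp.prime.squarefree
  have hpi := Real.pi_pos
  have hp0 : (0 : ℝ) < p := by exact_mod_cast hp.pos
  have hsp : 0 < Real.sqrt p := Real.sqrt_pos.2 hp0
  have e1 : |(((-(p : ℤ)) : ℤ) : ℝ)| = p := by
    push_cast; rw [abs_neg, abs_of_nonneg hp0.le]
  rw [e1, Real.norm_of_nonneg (by positivity)] at habs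
  have e2 : |(((2 * T p : ℤ)) : ℝ)| = -(2 * T p) := by
    rw [abs_of_nonpos]
    · push_cast; ring
    · have : (T p : ℝ) ≤ 0 := by exact_mod_cast hT
      push_cast; linarith
  rw [e2] at habs
  have h3 : Real.pi * (2 * ((p : ℝ) * classNumber K)) = Real.pi * (-(2 * T p)) := by
    rw [habs]
    field_simp
  have h6 := mul_left_cancel₀ hpi.ne' h3
  have h7 : ((p : ℝ) * classNumber K) = -(T p : ℝ) := by linarith
  exact_mod_cast h7

/-- Dirichlet's class number formula, `p ≡ 3 (mod 4)`, `p > 3`. -/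
theorem classNumber_three (h5 : 5 ≤ p) (h4 : p % 4 = 3) (K : Type) [Field K] [NumberField K]
    (h2 : finrank ℚ K = 2) (β : K) (hβ : β ^ 2 = -(p : K)) :
    (p : ℤ) * classNumber K = - T p := by
  obtain ⟨L, _, _, _⟩ := exists_cyc p
  exact classNumber_three_aux L h5 h4 K h2 β hβ

end

end Pool.Agent.R441.CN
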