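import Pool.Agent.R441.CN.G

/-! The character of `ℚ(√-p)`, `p ≡ 1 (mod 4)`. -/

set_option autoImplicit false

namespace Pool.Agent.R441.CN

open Complex Finset Pool.Agent.H916R2 DirichletCharacter NumberField Module
open H300.HW IsCyclotomicExtension.Rat

section
variable {p : ℕ} [Fact p.Prime]

instance ne4p : NeZero (4 * p) := ⟨by have := (Fact.out : p.Prime).pos; omega⟩

/-- the integer valued symbol -/
def cc (p : ℕ) [Fact p.Prime] (r : ℕ) : ℤ := ZMod.χ₄ (r : ZMod 4) * legendreSym p (r : ℤ)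

lemma cc_mod (r : ℕ) : cc p (r % (4 * p)) = cc p r := by
  unfold cc
  have h1 : ((r % (4 * p) : ℕ) : ZMod 4) = (r : ZMod 4) := by
    rw [ZMod.natCast_eq_natCast_iff', Nat.mod_mod_of_dvd _ (dvd_mul_right 4 p)]
  have h2 : legendreSym p ((r % (4 * p) : ℕ) : ℤ) = legendreSym p (r : ℤ) := by
    rw [legendreSym.mod p (r : ℤ), legendreSym.mod p ((r % (4 * p) : ℕ) : ℤ)]
    congr 1
    rw [← Int.natCast_mod, ← Int.natCast_mod, Nat.mod_mod_of_dvd _ (dvd_mul_left p 4)]
  rw [h1, h2]

lemma cc_mul (r s : ℕ) : cc p (r * s) = cc p r * cc p s := by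
  unfold cc
  push_cast
  rw [map_mul, legendreSym.mul]
  ring

lemma cc_one : cc p 1 = 1 := by
  unfold cc
  simp [legendreSym.at_one]

lemma cc_tri (r : ℕ) : cc p r = 0 ∨ cc p r = 1 ∨ cc p r = -1 := by
  unfold cc
  have h1 : ∀ a : ZMod 4, ZMod.χ₄ a = 0 ∨ ZMod.χ₄ a = 1 ∨ ZMod.χ₄ a = -1 := by decide
  have h2 : legendreSym p (r : ℤ) = 0 ∨ legendreSym p (r : ℤ) = 1 ∨ legendreSym p (r : ℤ) = -1 := by
    by_cases h : (((r : ℤ)) : ZMod p) = 0
    · left; exact (legendreSym.eq_zero_iff p _).2 h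
    · right; exact legendreSym.eq_one_or_neg_one p h
  rcases h1 (r : ZMod 4) with h | h | h <;> rcases h2 with h' | h' | h' <;> rw [h, h'] <;> norm_num

lemma cc_zero_of (r : ℕ) (h : ¬ Nat.Coprime r (4 * p)) : cc p r = 0 := by
  unfold cc
  rw [Nat.coprime_mul_iff_right, not_and_or] at h
  rcases h with h | h
  · have h2 : r % 2 = 0 := by
      by_contra h3
      apply h
      have h4 : Nat.Coprime r (2 ^ 2) := Nat.Coprime.pow_right 2 (by
        rw [Nat.coprime_two_right, Nat.odd_iff]; omega)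
      exact h4
    have h5 : ZMod.χ₄ (r : ZMod 4) = 0 := by
      rw [ZMod.χ₄_nat_eq_if_mod_four, if_pos h2]
    rw [h5, zero_mul]
  · have h2 : p ∣ r := by
      by_contra h3
      apply h
      exact ((Nat.Prime.coprime_iff_not_dvd (Fact.out : p.Prime)).2 h3).symm
    have h5 : legendreSym p (r : ℤ) = 0 := by
      rw [legendreSym.eq_zero_iff]
      push_cast
      exact (ZMod.natCast_eq_zero_iff _ _).2 h2
    rw [h5, mul_zero]

lemma cc_ne_zero (r : ℕ) (h : Nat.Coprime r (4 * p)) : cc p r ≠ 0 := by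
  unfold cc
  rw [Nat.coprime_mul_iff_right] at h
  obtain ⟨h1, h2⟩ := h
  have h3 : r % 2 = 1 := by
    have h4 : Nat.Coprime r 2 := Nat.Coprime.coprime_dvd_right (by norm_num) h1
    rw [Nat.coprime_two_right, Nat.odd_iff] at h4
    exact h4
  apply mul_ne_zero
  · rw [ZMod.χ₄_nat_eq_if_mod_four, if_neg (by omega)]
    split_ifs <;> norm_num
  · rw [Ne, legendreSym.eq_zero_iff]
    push_cast
    rw [ZMod.natCast_eq_zero_iff]
    intro h5
    have := Nat.Coprime.eq_one_of_dvd h2.symm h5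
    exact (Fact.out : p.Prime).one_lt.ne' this

/-- the Dirichlet character modulo `4p` -/
noncomputable def chi (p : ℕ) [Fact p.Prime] : DirichletCharacter ℂ (4 * p) where
  toFun a := ((cc p a.val : ℤ) : ℂ)
  map_one' := by
    have : ((1 : ZMod (4 * p)).val) = 1 := by
      have h : Fact (1 < 4 * p) := ⟨by have := (Fact.out : p.Prime).pos; omega⟩
      exact ZMod.val_one _
    rw [this, cc_one]
    norm_num
  map_mul' a b := by
    rw [ZMod.val_mul, cc_mod, cc_mul]
    push_cast
    rfl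
  map_nonunit' a ha := by
    have h1 : cc p a.val = 0 := by
      apply cc_zero_of
      intro h2
      apply ha
      have h3 := (ZMod.isUnit_iff_coprime a.val (4 * p)).mpr h2
      rwa [ZMod.natCast_zmod_val] at h3
    rw [h1]
    norm_num

lemma chi_val (a : ZMod (4 * p)) : chi p a = ((cc p a.val : ℤ) : ℂ) := rfl

lemma chi_nat (r : ℕ) : chi p (r : ZMod (4 * p)) = ((cc p r : ℤ) : ℂ) := by
  rw [chi_val, ZMod.val_natCast, cc_mod]

lemma chi_zero : chi p 0 = 0 := by
  have := chi_nat (p := p) 0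
  rw [Nat.cast_zero] at this
  rw [this, cc_zero_of]
  · norm_num
  · intro h
    rw [Nat.coprime_zero_left] at h
    have := (Fact.out : p.Prime).pos
    omega

lemma chi_inv : (chi p)⁻¹ = chi p := by
  have h : (chi p).IsQuadratic := by
    intro a
    rw [chi_val]
    rcases cc_tri (p := p) a.val with h | h | h <;> rw [h] <;> simp
  exact h.inv

lemma cc_neg_one (h1 : p % 4 = 1) : cc p (4 * p - 1) = -1 := by
  unfold cc
  have hp := (Fact.out : p.Prime).pos
  have e1 : ((4 * p - 1 : ℕ) : ZMod 4) = -1 := by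
    rw [Nat.cast_sub (by omega)]
    push_cast
    have : (4 : ZMod 4) = 0 := by decide
    rw [this]; ring
  have e2 : legendreSym p ((4 * p - 1 : ℕ) : ℤ) = legendreSym p (-1) := by
    rw [legendreSym.mod p ((4 * p - 1 : ℕ) : ℤ), legendreSym.mod p (-1)]
    congr 1
    rw [Nat.cast_sub (by omega)]
    push_cast
    rw [show (4 * (p : ℤ) - 1) = -1 + p * 4 by ring, Int.add_mul_emod_self_left]
  rw [e1, e2, legendreSym.at_neg_one (by omega), ZMod.χ₄_nat_one_mod_four h1]
  decide

lemma chi_odd (h1 : p % 4 = 1) : (chi p).Odd := by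
  unfold DirichletCharacter.Odd
  have hp := (Fact.out : p.Prime).pos
  have e : (-1 : ZMod (4 * p)) = ((4 * p - 1 : ℕ) : ZMod (4 * p)) := by
    rw [Nat.cast_sub (by omega), ZMod.natCast_self]
    push_cast
    ring
  rw [e, chi_nat, cc_neg_one h1]
  norm_num

lemma chi_ne_one (h1 : p % 4 = 1) : chi p ≠ 1 := by
  intro h
  have h2 := chi_odd h1
  unfold DirichletCharacter.Odd at h2
  rw [h, MulChar.one_apply (by exact isUnit_one.neg)] at h2
  norm_num at h2

/-- a nonresidue that is `1` modulo `4` -/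
lemma exists_non (h1 : p % 4 = 1) : ∃ r : ℕ, r % 4 = 1 ∧ legendreSym p (r : ℤ) = -1 := by
  have hc : ringChar (ZMod p) ≠ 2 := by
    rw [ZMod.ringChar_zmod_n]; omega
  obtain ⟨a, ha⟩ := quadraticChar_exists_neg_one (F := ZMod p) hc
  have hcop : Nat.Coprime 4 p := by
    have : Nat.Coprime (2 ^ 2) p := Nat.Coprime.pow_left 2 (by
      rw [Nat.coprime_two_left, Nat.odd_iff]; omega)
    exact this
  obtain ⟨r, hr1, hr2⟩ := Nat.chineseRemainder hcop 1 a.val
  refine ⟨r, hr1, ?_⟩
  have h3 : ((r : ℕ) : ZMod p) = a := by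
    rw [← ZMod.natCast_zmod_val a]
    exact (ZMod.natCast_eq_natCast_iff _ _ _).2 hr2
  rw [legendreSym]
  push_cast
  rw [h3]
  exact ha

/-- a residue that is `3` modulo `4` and `1` modulo `p` -/
lemma exists_three (h1 : p % 4 = 1) : ∃ r : ℕ, r % 4 = 3 ∧ r % p = 1 := by
  have hp := (Fact.out : p.Prime).two_le
  refine ⟨2 * p + 1, by omega, ?_⟩
  rw [Nat.add_mod, Nat.mul_mod_left, zero_add, Nat.mod_mod, Nat.mod_eq_of_lt (by omega)]

lemma chi_prim (h1 : p % 4 = 1) : (chi p).IsPrimitive := by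
  have hp : p.Prime := Fact.out
  have hp2 : p ≠ 2 := by omega
  rw [isPrimitive_def]
  set d := (chi p).conductor with hd
  have hdvd : d ∣ 4 * p := (chi p).conductor_dvd_level
  have hF := (chi p).factorsThrough_conductor
  rw [← hd, factorsThrough_iff_ker_unitsMap hdvd] at hF
  -- elements congruent to `1` modulo `d`
  have key : ∀ r : ℕ, Nat.Coprime r (4 * p) → r % d = 1 % d → cc p r = 1 := by
    intro r hr hrd
    have h2 : ZMod.unitOfCoprime r hr ∈ (ZMod.unitsMap hdvd).ker := by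
      rw [MonoidHom.mem_ker]
      apply Units.ext
      rw [ZMod.unitsMap_val, ZMod.coe_unitOfCoprime, Units.val_one]
      rw [ZMod.cast_natCast hdvd]
      have : ((r : ℕ) : ZMod d) = ((1 : ℕ) : ZMod d) := (ZMod.natCast_eq_natCast_iff' _ _ _).2 hrd
      rw [this]; simp
    have h3 := hF h2
    rw [MonoidHom.mem_ker] at h3
    have h4 := congrArg Units.val h3
    rw [MulChar.coe_toUnitHom, ZMod.coe_unitOfCoprime, chi_nat, Units.val_one] at h4
    exact_mod_cast h4
  have hcop4 : ∀ r : ℕ, r % 2 = 1 → Nat.Coprime r 4 := by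
    intro r hr
    have : Nat.Coprime r (2 ^ 2) := Nat.Coprime.pow_right 2 (by
      rw [Nat.coprime_two_right, Nat.odd_iff]; omega)
    exact this
  have hpd : p ∣ d := by
    by_contra hpd
    have h4 : d ∣ 4 := by
      have : Nat.Coprime d p := ((Nat.Prime.coprime_iff_not_dvd hp).2 hpd).symm
      exact this.dvd_of_dvd_mul_right hdvd
    obtain ⟨r, hr1, hr2⟩ := exists_non (p := p) h1
    have hr3 : Nat.Coprime r (4 * p) := by
      rw [Nat.coprime_mul_iff_right]
      refine ⟨hcop4 r (by omega), ?_⟩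
      apply Nat.Coprime.symm
      rw [Nat.Prime.coprime_iff_not_dvd hp]
      intro h
      have : legendreSym p (r : ℤ) = 0 := by
        rw [legendreSym.eq_zero_iff]
        push_cast
        exact (ZMod.natCast_eq_zero_iff _ _).2 h
      rw [this] at hr2
      norm_num at hr2
    have h5 := key r hr3 (by
      have : r % 4 % d = 1 % 4 % d := by rw [hr1]
      rwa [Nat.mod_mod_of_dvd _ h4, Nat.mod_mod_of_dvd _ h4] at this)
    unfold cc at h5
    rw [hr2, ZMod.χ₄_nat_one_mod_four hr1] at h5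
    norm_num at h5
  obtain ⟨e, he⟩ := hpd
  have he4 : e ∣ 4 := by
    rw [he, mul_comm p e] at hdvd
    exact Nat.dvd_of_mul_dvd_mul_right hp.pos hdvd
  have he' : e = 1 ∨ e = 2 ∨ e = 4 := by
    have h8 : ∀ e : ℕ, e ∣ 4 → e = 1 ∨ e = 2 ∨ e = 4 := by
      intro e he
      have h9 : e ≤ 4 := Nat.le_of_dvd (by norm_num) he
      interval_cases e <;> omega
    exact h8 e he4
  have h2p : ¬ d ∣ 2 * p := by
    intro h2p
    obtain ⟨r, hr1, hr2⟩ := exists_three (p := p) h1
    have hr3 : Nat.Coprime r (4 * p) := by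
      rw [Nat.coprime_mul_iff_right]
      refine ⟨hcop4 r (by omega), ?_⟩
      apply Nat.Coprime.symm
      rw [Nat.Prime.coprime_iff_not_dvd hp]
      intro h
      have := Nat.mod_eq_zero_of_dvd h
      omega
    have hr4 : r % (2 * p) = 1 := by
      have hcop : Nat.Coprime 2 p := by rw [Nat.coprime_two_left, Nat.odd_iff]; omega
      have h6 : r ≡ 1 [MOD 2 * p] := by
        rw [← Nat.modEq_and_modEq_iff_modEq_mul hcop]
        refine ⟨?_, ?_⟩
        · show r % 2 = 1 % 2
          omega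
        · show r % p = 1 % p
          rw [hr2, Nat.mod_eq_of_lt hp.one_lt]
      have h7 : r % (2 * p) = 1 % (2 * p) := h6
      rw [h7, Nat.mod_eq_of_lt]
      have := hp.two_le
      omega
    have h5 := key r hr3 (by
      have h8 : r % (2 * p) % d = 1 % d := by rw [hr4]
      rwa [Nat.mod_mod_of_dvd _ h2p] at h8)
    unfold cc at h5
    have h9 : legendreSym p (r : ℤ) = 1 := by
      rw [legendreSym.mod, ← Int.natCast_mod, hr2]
      exact legendreSym.at_one p
    rw [h9, ZMod.χ₄_nat_three_mod_four hr1] at h5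
    norm_num at h5
  rcases he' with h | h | h
  · exfalso; apply h2p; rw [he, h, mul_one]; exact dvd_mul_left p 2
  · exfalso; apply h2p; rw [he, h, mul_comm]
  · rw [he, h, mul_comm]

end

end Pool.Agent.R441.CN
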