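import Pool.Agent.R441.CN.H

/-! Dirichlet's class number formula for `ℚ(√-p)`, `p ≡ 1 (mod 4)`. -/

set_option autoImplicit false

namespace Pool.Agent.R441.CN

open Complex Finset Pool.Agent.H916R2 DirichletCharacter NumberField Module
open H300.HW IsCyclotomicExtension.Rat

lemma sum_fold (N : ℕ) (G : ℕ → ℤ) : ∑ r ∈ range (2 * N), G r + G (2 * N) =
    ∑ r ∈ range N, (G r + G (2 * N - r)) + G N := by
  rw [← Finset.sum_range_succ, show 2 * N + 1 = N + (N + 1) by ring, Finset.sum_range_add,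
    Finset.sum_add_distrib, add_assoc]
  congr 1
  rw [← Finset.sum_range_reflect (fun x => G (N + x)) (N + 1), Finset.sum_range_succ]
  congr 1
  · apply Finset.sum_congr rfl
    intro r hr
    rw [mem_range] at hr
    congr 1
    omega
  · congr 1
    omega

lemma sum_four (m : ℕ) (F : ℕ → ℤ) : ∑ r ∈ range (4 * m + 1), F r =
    F 0 + ∑ j ∈ range m, (F (4 * j + 1) + F (4 * j + 2) + F (4 * j + 3) + F (4 * j + 4)) := by
  induction m with
  | zero => simp
  | succ m ih =>
    rw [show 4 * (m + 1) + 1 = 4 * m + 1 + 1 + 1 + 1 + 1 by ring, Finset.sum_range_succ,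
      Finset.sum_range_succ, Finset.sum_range_succ, Finset.sum_range_succ, ih,
      Finset.sum_range_succ]
    ring

section
variable {p : ℕ} [Fact p.Prime]

lemma cc_even (r : ℕ) (h : r % 2 = 0) : cc p r = 0 := by
  unfold cc
  rw [ZMod.χ₄_nat_eq_if_mod_four, if_pos h, zero_mul]

lemma cc_p : cc p p = 0 := by
  unfold cc
  have : legendreSym p (p : ℤ) = 0 := by
    rw [legendreSym.eq_zero_iff]; simp
  rw [this, mul_zero]

lemma leg_add_mul (a : ℤ) (k : ℤ) : legendreSym p (a + p * k) = legendreSym p a := by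
  rw [legendreSym.mod p (a + p * k), Int.add_mul_emod_self_left, ← legendreSym.mod]

lemma leg_neg (h1 : p % 4 = 1) (a : ℤ) : legendreSym p (-a) = legendreSym p a := by
  rw [← neg_one_mul, legendreSym.mul, legendreSym.at_neg_one (by omega),
    ZMod.χ₄_nat_one_mod_four h1, one_mul]

lemma leg_four (h1 : p % 4 = 1) (a : ℤ) : legendreSym p (4 * a) = legendreSym p a := by
  rw [legendreSym.mul, show (4 : ℤ) = 2 ^ 2 by norm_num, legendreSym.sq_one' p (by
    rw [Ne, show ((2 : ℤ) : ZMod p) = ((2 : ℕ) : ZMod p) by push_cast; rfl,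
      ZMod.natCast_eq_zero_iff]
    intro h
    have := Nat.le_of_dvd (by norm_num) h
    have h2 := (Fact.out : p.Prime).two_le
    have : p = 2 := by omega
    omega), one_mul]

lemma cc_four_sub (h1 : p % 4 = 1) (r : ℕ) (hr : r ≤ 4 * p) : cc p (4 * p - r) = - cc p r := by
  unfold cc
  have e1 : ((4 * p - r : ℕ) : ZMod 4) = -(r : ZMod 4) := by
    rw [Nat.cast_sub hr]
    push_cast
    have : (4 : ZMod 4) = 0 := by decide
    rw [this]; ring
  have e2 : ((4 * p - r : ℕ) : ℤ) = -(r : ℤ) + p * 4 := by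
    rw [Nat.cast_sub hr]; push_cast; ring
  have e3 : ∀ a : ZMod 4, ZMod.χ₄ (-a) = - ZMod.χ₄ a := by decide
  rw [e1, e2, e3, leg_add_mul, leg_neg h1]
  ring

lemma cc_two_sub (h1 : p % 4 = 1) (r : ℕ) (hr : r ≤ 2 * p) : cc p (2 * p - r) = cc p r := by
  unfold cc
  have e1 : ((2 * p - r : ℕ) : ZMod 4) = 2 - (r : ZMod 4) := by
    rw [Nat.cast_sub hr]
    push_cast
    obtain ⟨k, hk⟩ : ∃ k, p = 4 * k + 1 := ⟨p / 4, by omega⟩
    rw [hk]
    push_cast
    have : (4 : ZMod 4) = 0 := by decide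
    rw [this]; ring
  have e2 : ((2 * p - r : ℕ) : ℤ) = -(r : ℤ) + p * 2 := by
    rw [Nat.cast_sub hr]; push_cast; ring
  have e3 : ∀ a : ZMod 4, ZMod.χ₄ (2 - a) = ZMod.χ₄ a := by decide
  rw [e1, e2, e3, leg_add_mul, leg_neg h1]

lemma sum_cc (h1 : p % 4 = 1) : ∑ r ∈ range (4 * p), (r : ℤ) * cc p r =
    -(4 * p) * ∑ r ∈ range p, cc p r := by
  have hp := (Fact.out : p.Prime).pos
  have f0 : cc p 0 = 0 := cc_even 0 rfl
  have f2 : cc p (2 * p) = 0 := cc_even _ (by omega)
  have f4 : cc p (4 * p) = 0 := cc_even _ (by omega)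
  have s1 := sum_fold (2 * p) (fun r => (r : ℤ) * cc p r)
  have s2 := sum_fold p (fun r => (r : ℤ) * cc p r)
  have s3 := sum_fold p (fun r => cc p r)
  rw [show 2 * (2 * p) = 4 * p by ring, f4, f2, mul_zero, mul_zero, add_zero, add_zero] at s1
  rw [f2, cc_p, mul_zero, mul_zero, add_zero, add_zero] at s2
  rw [f2, cc_p, add_zero, add_zero] at s3
  have e1 : ∑ r ∈ range (2 * p), ((r : ℤ) * cc p r + ((4 * p - r : ℕ) : ℤ) * cc p (4 * p - r)) =
      2 * ∑ r ∈ range (2 * p), (r : ℤ) * cc p r - 4 * p * ∑ r ∈ range (2 * p), cc p r := by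
    rw [Finset.mul_sum, Finset.mul_sum, ← Finset.sum_sub_distrib]
    apply Finset.sum_congr rfl
    intro r hr
    rw [mem_range] at hr
    rw [cc_four_sub h1 r (by omega), Nat.cast_sub (by omega)]
    push_cast
    ring
  have e2 : ∑ r ∈ range p, ((r : ℤ) * cc p r + ((2 * p - r : ℕ) : ℤ) * cc p (2 * p - r)) =
      2 * p * ∑ r ∈ range p, cc p r := by
    rw [Finset.mul_sum]
    apply Finset.sum_congr rfl
    intro r hr
    rw [mem_range] at hr
    rw [cc_two_sub h1 r (by omega), Nat.cast_sub (by omega)]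
    push_cast
    ring
  have e3 : ∑ r ∈ range p, (cc p r + cc p (2 * p - r)) = 2 * ∑ r ∈ range p, cc p r := by
    rw [Finset.mul_sum]
    apply Finset.sum_congr rfl
    intro r hr
    rw [mem_range] at hr
    rw [cc_two_sub h1 r (by omega)]
    ring
  rw [s1, e1, s2, e2, s3, e3]
  ring

/-- the quarter sum -/
def AQ (p : ℕ) [Fact p.Prime] : ℤ := ∑ j ∈ range ((p - 1) / 4), legendreSym p ((j + 1 : ℕ) : ℤ)

lemma half_zero (h1 : p % 4 = 1) (m : ℕ) (hm : p = 4 * m + 1) :
    ∑ j ∈ range (2 * m), legendreSym p ((j + 1 : ℕ) : ℤ) = 0 := by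
  have hp2 : p ≠ 2 := by omega
  have hc : ringChar (ZMod p) ≠ 2 := by rwa [ZMod.ringChar_zmod_n]
  have h3 := quadraticChar_sum_zero (F := ZMod p) hc
  have h4 : ∑ r ∈ range p, legendreSym p (r : ℤ) = 0 := by
    rw [← h3]
    symm
    apply Finset.sum_nbij' (fun x : ZMod p => x.val) (fun i : ℕ => (i : ZMod p))
    · intro x _
      exact mem_range.2 (ZMod.val_lt x)
    · intro i _
      exact mem_univ _
    · intro x _
      exact ZMod.natCast_zmod_val x
    · intro i hi
      exact ZMod.val_natCast_of_lt (mem_range.1 hi)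
    · intro x _
      rw [legendreSym]
      push_cast
      rw [ZMod.natCast_zmod_val]
  have key : ∀ (f : ℕ → ℤ), f 0 = 0 → (∀ j < 2 * m, f (4 * m - j) = f (j + 1)) →
      ∑ r ∈ range (4 * m + 1), f r = 2 * ∑ j ∈ range (2 * m), f (j + 1) := by
    intro f f0 hf
    rw [show 4 * m + 1 = (2 * m + 2 * m) + 1 by ring, Finset.sum_range_succ',
      Finset.sum_range_add, f0, add_zero, two_mul (∑ j ∈ range (2 * m), f (j + 1))]
    congr 1
    rw [← Finset.sum_range_reflect (fun x => f (2 * m + x + 1))]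
    apply Finset.sum_congr rfl
    intro j hj
    rw [mem_range] at hj
    rw [← hf j hj]
    congr 1
    omega
  have h5 := key (fun r => legendreSym p (r : ℤ)) (by simp [legendreSym.at_zero]) (by
    intro j hj
    show legendreSym p ((4 * m - j : ℕ) : ℤ) = legendreSym p ((j + 1 : ℕ) : ℤ)
    have : ((4 * m - j : ℕ) : ℤ) = -((j + 1 : ℕ) : ℤ) + p * 1 := by
      rw [Nat.cast_sub (by omega)]
      have : (p : ℤ) = 4 * m + 1 := by exact_mod_cast hm
      rw [this]
      push_cast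
      ring
    rw [this, leg_add_mul, leg_neg h1])
  have h6 : ∑ r ∈ range (4 * m + 1), legendreSym p (r : ℤ) = ∑ r ∈ range p, legendreSym p (r : ℤ) := by
    rw [← hm]
  have h7 : ∑ r ∈ range (4 * m + 1), legendreSym p (r : ℤ) =
      2 * ∑ j ∈ range (2 * m), legendreSym p ((j + 1 : ℕ) : ℤ) := h5
  rw [h6, h4] at h7
  omega

lemma sum_cc_p (h1 : p % 4 = 1) : ∑ r ∈ range p, cc p r = 2 * AQ p := by
  obtain ⟨m, hm⟩ : ∃ m, p = 4 * m + 1 := ⟨p / 4, by omega⟩
  have hz := half_zero h1 m hm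
  have hpz : (p : ℤ) = 4 * m + 1 := by exact_mod_cast hm
  have hA : AQ p = ∑ j ∈ range m, legendreSym p ((j + 1 : ℕ) : ℤ) := by
    unfold AQ
    congr 2
    omega
  have h2 := sum_four m (fun r => cc p r)
  have h3 : ∑ r ∈ range (4 * m + 1), cc p r = ∑ r ∈ range p, cc p r := by rw [← hm]
  have h2' : ∑ r ∈ range (4 * m + 1), cc p r =
    cc p 0 + ∑ j ∈ range m, (cc p (4 * j + 1) + cc p (4 * j + 2) + cc p (4 * j + 3) + cc p (4 * j + 4)) := h2
  rw [← h3, h2', cc_even 0 rfl, zero_add]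
  have e1 : ∀ j ∈ range m, cc p (4 * j + 1) + cc p (4 * j + 2) + cc p (4 * j + 3) +
      cc p (4 * j + 4) = legendreSym p ((m - 1 - j + 1 : ℕ) : ℤ) -
        legendreSym p ((m + j + 1 : ℕ) : ℤ) := by
    intro j hj
    rw [mem_range] at hj
    have a1 : cc p (4 * j + 1) = legendreSym p ((m - 1 - j + 1 : ℕ) : ℤ) := by
      unfold cc
      rw [ZMod.χ₄_nat_one_mod_four (by omega), one_mul]
      have : ((4 * j + 1 : ℕ) : ℤ) = -(4 * ((m - 1 - j + 1 : ℕ) : ℤ)) + p * 1 := by
        have : ((m - 1 - j + 1 : ℕ) : ℤ) = (m : ℤ) - j := by omega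
        rw [this, hpz]
        push_cast
        ring
      rw [this, leg_add_mul, leg_neg h1, leg_four h1]
    have a3 : cc p (4 * j + 3) = - legendreSym p ((m + j + 1 : ℕ) : ℤ) := by
      unfold cc
      rw [ZMod.χ₄_nat_three_mod_four (by omega), neg_one_mul]
      have : ((4 * j + 3 : ℕ) : ℤ) = (4 * ((m + j + 1 : ℕ) : ℤ)) + p * (-1) := by
        rw [hpz]
        push_cast
        ring
      rw [this, leg_add_mul, leg_four h1]
    rw [a1, a3, cc_even _ (by omega), cc_even (4 * j + 4) (by omega)]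
    ring
  rw [Finset.sum_congr rfl e1, Finset.sum_sub_distrib]
  have e2 := Finset.sum_range_reflect (fun x => legendreSym p ((x + 1 : ℕ) : ℤ)) m
  have e2' : ∑ j ∈ range m, legendreSym p ((m - 1 - j + 1 : ℕ) : ℤ) =
    ∑ j ∈ range m, legendreSym p ((j + 1 : ℕ) : ℤ) := e2
  rw [show 2 * m = m + m by ring, Finset.sum_range_add] at hz
  rw [e2', hA]
  linarith

lemma saw_sum_one (h1 : p % 4 = 1) : ∑ j : ZMod (4 * p), chi p j * (saw j : ℂ) =
    ((-(16 * p) * AQ p : ℤ) : ℂ) := by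
  have e1 : ∑ j : ZMod (4 * p), chi p j * (saw j : ℂ) =
      ∑ r ∈ range (4 * p), (((2 * (r : ℤ) - 4 * p) * cc p r : ℤ) : ℂ) := by
    apply Finset.sum_nbij' (fun x : ZMod (4 * p) => x.val) (fun i : ℕ => (i : ZMod (4 * p)))
    · intro x _
      exact mem_range.2 (ZMod.val_lt x)
    · intro i _
      exact mem_univ _
    · intro x _
      exact ZMod.natCast_zmod_val x
    · intro i hi
      exact ZMod.val_natCast_of_lt (mem_range.1 hi)
    · intro x _
      rw [chi_val]
      unfold saw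
      split_ifs with hx
      · rw [hx, ZMod.val_zero, cc_even 0 rfl]
        simp
      · push_cast
        ring
  rw [e1, ← Int.cast_sum]
  congr 1
  have e2 : ∀ r ∈ range (4 * p), (2 * (r : ℤ) - 4 * p) * cc p r =
      2 * ((r : ℤ) * cc p r) - 4 * p * cc p r := by
    intro r _
    ring
  have e3 : ∑ r ∈ range (4 * p), cc p r = 0 := by
    have h3 := MulChar.sum_eq_zero_of_ne_one (chi_ne_one (p := p) h1)
    have h4 : ∑ j : ZMod (4 * p), chi p j = ((∑ r ∈ range (4 * p), cc p r : ℤ) : ℂ) := by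
      push_cast
      apply Finset.sum_nbij' (fun x : ZMod (4 * p) => x.val) (fun i : ℕ => (i : ZMod (4 * p)))
      · intro x _
        exact mem_range.2 (ZMod.val_lt x)
      · intro i _
        exact mem_univ _
      · intro x _
        exact ZMod.natCast_zmod_val x
      · intro i hi
        exact ZMod.val_natCast_of_lt (mem_range.1 hi)
      · intro x _
        exact chi_val x
    rw [h3] at h4
    exact_mod_cast h4.symm
  rw [Finset.sum_congr rfl e2, Finset.sum_sub_distrib, ← Finset.mul_sum, ← Finset.mul_sum, e3,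
    sum_cc h1, sum_cc_p h1]
  ring

theorem classNumber_one_aux (L : Type) [Field L] [NumberField L]
    [IsCyclotomicExtension {4 * p} ℚ L]
    (h5 : 5 ≤ p) (h1 : p % 4 = 1) (K : Type) [Field K] [NumberField K]
    (h2 : finrank ℚ K = 2) (β : K) (hβ : β ^ 2 = -(p : K)) :
    (classNumber K : ℤ) = 2 * |AQ p| := by
  have hp : p.Prime := Fact.out
  have hζ := IsCyclotomicExtension.zeta_spec (4 * p) ℚ L
  set ζ := IsCyclotomicExtension.zeta (4 * p) ℚ L with hζd
  have h4p : 0 < 4 * p := by omega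
  have hη : IsPrimitiveRoot (ζ ^ 4) p := hζ.pow h4p rfl
  have hι : IsPrimitiveRoot (ζ ^ p) 4 := hζ.pow h4p (by ring)
  have hι2 : (ζ ^ p) ^ 2 = -1 := by
    have : IsPrimitiveRoot ((ζ ^ p) ^ 2) 2 := hι.pow (by norm_num) (by norm_num)
    exact this.eq_neg_one_of_two_right
  have hsq := gs_sq (by omega) hη
  have hm1 : quadraticChar (ZMod p) (-1) = 1 := by
    have h := legendreSym.at_neg_one (p := p) (by omega)
    rw [ZMod.χ₄_nat_one_mod_four h1, legendreSym] at h
    simpa using h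
  rw [hm1] at hsq
  have hα : (ζ ^ p * gs hη) ^ 2 = -(p : L) := by rw [mul_pow, hι2, hsq]; push_cast; ring
  have hχ : ∀ σ : Gal(L/ℚ), σ (ζ ^ p * gs hη) = ζ ^ p * gs hη →
      chi p (galEquivZMod (4 * p) L σ : ZMod (4 * p)) = 1 := by
    intro σ hσ
    set k := (galEquivZMod (4 * p) L σ).val.val with hk
    have hkc : Nat.Coprime k (4 * p) := by
      have h6 : IsUnit ((k : ZMod (4 * p))) := by
        rw [hk, ZMod.natCast_zmod_val]
        exact (galEquivZMod (4 * p) L σ).isUnit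
      exact (ZMod.isUnit_iff_coprime k (4 * p)).1 h6
    have hkp : ¬ p ∣ k := by
      intro h
      have h7 : p ∣ Nat.gcd k (4 * p) := Nat.dvd_gcd h (dvd_mul_left p 4)
      rw [hkc] at h7
      exact hp.one_lt.ne' (Nat.dvd_one.1 h7)
    have h6 : σ ζ = ζ ^ k := galEquivZMod_apply_of_pow_eq (4 * p) L σ hζ.pow_eq_one
    have h6' : (σ : L →+* L) (ζ ^ 4) = (ζ ^ 4) ^ k := by
      show σ (ζ ^ 4) = _
      rw [map_pow, h6, ← pow_mul, ← pow_mul, mul_comm]
    have h7 := gs_map hη (σ : L →+* L) k hkp h6'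
    have h8 : σ (ζ ^ p) = ((ZMod.χ₄ (k : ZMod 4) : ℤ) : L) * ζ ^ p := by
      have hk2 : k % 2 = 1 := by
        have : Nat.Coprime k 2 := Nat.Coprime.coprime_dvd_right (by
          rw [mul_comm]; exact Dvd.dvd.mul_left (by norm_num) p) hkc
        rw [Nat.coprime_two_right, Nat.odd_iff] at this
        exact this
      have h9 : σ (ζ ^ p) = (ζ ^ p) ^ k := by
        rw [map_pow, h6, ← pow_mul, ← pow_mul, mul_comm]
      rw [h9]
      have hk4 : k % 4 = 1 ∨ k % 4 = 3 := by omega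
      rcases hk4 with h | h
      · rw [ZMod.χ₄_nat_one_mod_four h]
        obtain ⟨t, ht⟩ : ∃ t, k = 2 * (2 * t) + 1 := ⟨k / 4, by omega⟩
        rw [ht, pow_succ, pow_mul, hι2, pow_mul]
        norm_num
      · rw [ZMod.χ₄_nat_three_mod_four h]
        obtain ⟨t, ht⟩ : ∃ t, k = 2 * (2 * t + 1) + 1 := ⟨k / 4, by omega⟩
        rw [ht, pow_succ, pow_mul, hι2, pow_succ, pow_mul]
        norm_num
    have h8' : (σ : L →+* L) (gs hη) = σ (gs hη) := rfl
    rw [h8'] at h7
    rw [map_mul, h8, h7] at hσ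
    have hg0 : ζ ^ p * gs hη ≠ 0 := by
      intro h0
      rw [h0] at hα
      have : (p : L) = 0 := by
        have h9 : (0 : L) ^ 2 = -(p : L) := hα
        linear_combination h9
      exact hp.ne_zero (by exact_mod_cast this)
    have h9 : ((cc p k : ℤ) : L) = 1 := by
      apply mul_right_cancel₀ hg0
      rw [one_mul]
      nth_rewrite 2 [← hσ]
      unfold cc
      have e5 : legendreSym p (k : ℤ) = quadraticChar (ZMod p) (k : ZMod p) := by
        rw [legendreSym]; push_cast; rfl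
      rw [e5]
      push_cast
      ring
    have h10 : cc p k = 1 := by exact_mod_cast h9
    have h11 : ((galEquivZMod (4 * p) L σ : (ZMod (4 * p))ˣ) : ZMod (4 * p)) = (k : ZMod (4 * p)) := by
      rw [hk, ZMod.natCast_zmod_val]
    rw [h11, chi_nat, h10]
    simp
  have hL1 := classNumber_L (4 * p) L hp h5 _ hα (chi p) (chi_prim h1) (chi_ne_one h1) hχ
    K h2 β hβ
  have habs := L_abs (chi p) (chi_prim h1) (chi_odd h1) chi_inv chi_zero
  rw [← hL1, saw_sum_one h1, discr_one h2 hp hβ h1, Complex.norm_real, Complex.norm_intCast] at habs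
  have hpi := Real.pi_pos
  have hp0 : (0 : ℝ) < p := by exact_mod_cast hp.pos
  have hsp : 0 < Real.sqrt ((4 * p : ℕ) : ℝ) := Real.sqrt_pos.2 (by push_cast; positivity)
  have e1 : |(((-(4 * p : ℤ)) : ℤ) : ℝ)| = ((4 * p : ℕ) : ℝ) := by
    push_cast; rw [abs_neg, abs_of_nonneg (by positivity)]
  rw [e1, Real.norm_of_nonneg (by positivity)] at habs
  have e2 : |(((-(16 * p) * AQ p : ℤ)) : ℝ)| = 16 * p * |(AQ p : ℝ)| := by
    push_cast
    rw [abs_mul, abs_neg, abs_of_nonneg (by positivity : (0 : ℝ) ≤ 16 * p)]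
  rw [e2] at habs
  have h3 : (Real.pi * (8 * p)) * (classNumber K : ℝ) = (Real.pi * (8 * p)) * (2 * |(AQ p : ℝ)|) := by
    have : (Real.pi * (8 * p)) * (2 * |(AQ p : ℝ)|) = Real.pi * (16 * p * |(AQ p : ℝ)|) := by ring
    rw [this, habs]
    push_cast at hsp ⊢
    field_simp
    ring
  have h6 := mul_left_cancel₀ (by positivity) h3
  exact_mod_cast h6

/-- Dirichlet's class number formula, `p ≡ 1 (mod 4)`. -/
theorem classNumber_one (h1 : p % 4 = 1) (K : Type) [Field K] [NumberField K]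
    (h2 : finrank ℚ K = 2) (β : K) (hβ : β ^ 2 = -(p : K)) :
    (classNumber K : ℤ) = 2 * |AQ p| := by
  obtain ⟨L, _, _, _⟩ := exists_cyc (4 * p)
  have := (Fact.out : p.Prime).two_le
  exact classNumber_one_aux L (by omega) h1 K h2 β hβ

end

end Pool.Agent.R441.CN
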