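import Mathlib

/-! The argument of `S_p` on the unit circle. -/

set_option autoImplicit false

namespace Pool.Agent.R441.CN

open Finset

section
variable {p : ℕ} [Fact p.Prime]

/-- the quadratic residues in `(0, p)` -/
def QR (p : ℕ) [Fact p.Prime] : Finset ℕ := (range p).filter (fun r => legendreSym p (r : ℤ) = 1)

lemma mem_QR (r : ℕ) : r ∈ QR p ↔ r < p ∧ legendreSym p (r : ℤ) = 1 := by
  rw [QR, mem_filter, mem_range]

lemma QR_pos {r : ℕ} (h : r ∈ QR p) : 0 < r := by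
  rw [mem_QR] at h
  by_contra h0
  have : r = 0 := by omega
  rw [this] at h
  simp [legendreSym.at_zero] at h

lemma cast_ne {k : ℕ} (h0 : 0 < k) (hk : k < p) : (k : ZMod p) ≠ 0 := by
  rw [Ne, ZMod.natCast_eq_zero_iff]
  intro h
  have := Nat.le_of_dvd h0 h
  omega

lemma cast_inj_of_lt {a b : ℕ} (ha : a < p) (hb : b < p) (h : (a : ZMod p) = (b : ZMod p)) :
    a = b := by
  rw [ZMod.natCast_eq_natCast_iff'] at h
  rwa [Nat.mod_eq_of_lt ha, Nat.mod_eq_of_lt hb] at h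

theorem prod_sq {M : Type*} [CommMonoid M] (hp2 : p ≠ 2) (F : ℕ → M) :
    ∏ k ∈ Icc 1 ((p - 1) / 2), F (k ^ 2 % p) = ∏ r ∈ QR p, F r := by
  have hp : p.Prime := Fact.out
  have hodd : p % 2 = 1 := by
    rcases hp.eq_two_or_odd with h | h
    · exact absurd h hp2
    · exact h
  apply Finset.prod_nbij (fun k => k ^ 2 % p)
  · intro k hk
    rw [mem_Icc] at hk
    rw [mem_QR]
    refine ⟨Nat.mod_lt _ hp.pos, ?_⟩
    have h0 : (k : ZMod p) ≠ 0 := cast_ne (by omega) (by omega)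
    have e : ((k ^ 2 % p : ℕ) : ℤ) = ((k : ℤ) ^ 2) % p := by push_cast; rfl
    rw [e, ← legendreSym.mod]
    exact legendreSym.sq_one' p (by exact_mod_cast h0)
  · intro k hk l hl h
    simp only [coe_Icc, Set.mem_Icc] at hk hl
    have h1 : ((k ^ 2 % p : ℕ) : ZMod p) = ((l ^ 2 % p : ℕ) : ZMod p) := by
      have : k ^ 2 % p = l ^ 2 % p := h
      rw [this]
    rw [ZMod.natCast_mod, ZMod.natCast_mod] at h1
    push_cast at h1
    rcases sq_eq_sq_iff_eq_or_eq_neg.1 h1 with h2 | h2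
    · exact cast_inj_of_lt (by omega) (by omega) h2
    · exfalso
      have h3 : ((k + l : ℕ) : ZMod p) = 0 := by push_cast; rw [h2]; ring
      exact cast_ne (p := p) (by omega) (by omega) h3
  · intro r hr
    have hr' : r ∈ QR p := hr
    have hrp := QR_pos hr'
    rw [mem_QR] at hr'
    have h0 : ((r : ℤ) : ZMod p) ≠ 0 := by
      push_cast; exact cast_ne hrp hr'.1
    obtain ⟨y, hy⟩ := (legendreSym.eq_one_iff p h0).1 hr'.2
    have hy2 : y ^ 2 = (r : ZMod p) := by rw [sq, ← hy]; push_cast; rfl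
    have hyv : (y.val : ZMod p) = y := ZMod.natCast_zmod_val y
    have hylt := ZMod.val_lt y
    have hy0 : 0 < y.val := by
      rw [Nat.pos_iff_ne_zero]
      intro h
      rw [ZMod.val_eq_zero] at h
      rw [h] at hy2
      apply h0
      push_cast
      rw [← hy2]; ring
    have hfin : ∀ k : ℕ, 1 ≤ k → k ≤ (p - 1) / 2 → (k : ZMod p) ^ 2 = (r : ZMod p) →
        r ∈ (fun k : ℕ => k ^ 2 % p) '' ↑(Icc 1 ((p - 1) / 2)) := by
      intro k hk1 hk2 hk3
      refine ⟨k, by simp only [coe_Icc, Set.mem_Icc]; exact ⟨hk1, hk2⟩, ?_⟩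
      apply cast_inj_of_lt (p := p) (Nat.mod_lt _ hp.pos) hr'.1
      rw [ZMod.natCast_mod]
      push_cast
      exact hk3
    by_cases hle : y.val ≤ (p - 1) / 2
    · exact hfin y.val hy0 hle (by rw [hyv, hy2])
    · apply hfin (p - y.val) (by omega) (by omega)
      rw [Nat.cast_sub hylt.le, ZMod.natCast_self, hyv, zero_sub, neg_sq, hy2]
  · intro k _
    rfl

theorem sum_sq {M : Type*} [AddCommMonoid M] (hp2 : p ≠ 2) (F : ℕ → M) :
    ∑ k ∈ Icc 1 ((p - 1) / 2), F (k ^ 2 % p) = ∑ r ∈ QR p, F r :=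
  prod_sq (M := Multiplicative M) hp2 F

lemma card_QR (hp2 : p ≠ 2) : (QR p).card = (p - 1) / 2 := by
  have h := sum_sq (p := p) hp2 (fun _ => 1)
  simp only [sum_const, smul_eq_mul, mul_one, Nat.card_Icc] at h
  omega

lemma exp_sub (θ φ : ℝ) : Complex.exp (θ * Complex.I) - Complex.exp (φ * Complex.I) =
    ((2 * Real.sin ((θ - φ) / 2) : ℝ) : ℂ) * (Complex.I *
      Complex.exp (((θ + φ) / 2 : ℝ) * Complex.I)) := by
  have h1 : (θ : ℂ) * Complex.I = (((θ + φ) / 2 : ℝ) : ℂ) * Complex.I +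
      (((θ - φ) / 2 : ℝ) : ℂ) * Complex.I := by push_cast; ring
  have h2 : (φ : ℂ) * Complex.I = (((θ + φ) / 2 : ℝ) : ℂ) * Complex.I -
      (((θ - φ) / 2 : ℝ) : ℂ) * Complex.I := by push_cast; ring
  rw [h1, h2, Complex.exp_add, Complex.exp_sub, Complex.exp_mul_I ((((θ - φ) / 2 : ℝ) : ℂ))]
  have h3 : (Complex.cos (((θ - φ) / 2 : ℝ) : ℂ) + Complex.sin (((θ - φ) / 2 : ℝ) : ℂ) * Complex.I)
      ≠ 0 := by
    rw [← Complex.exp_mul_I]; exact Complex.exp_ne_zero _
  have h4 : (Complex.cos (((θ - φ) / 2 : ℝ) : ℂ) + Complex.sin (((θ - φ) / 2 : ℝ) : ℂ) * Complex.I) *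
      (Complex.cos (((θ - φ) / 2 : ℝ) : ℂ) - Complex.sin (((θ - φ) / 2 : ℝ) : ℂ) * Complex.I) = 1 := by
    have := Complex.sin_sq_add_cos_sq (((θ - φ) / 2 : ℝ) : ℂ)
    have hI := Complex.I_sq
    linear_combination this - (Complex.sin (((θ - φ) / 2 : ℝ) : ℂ)) ^ 2 * hI
  have h5 : Complex.exp ((((θ + φ) / 2 : ℝ) : ℂ) * Complex.I) /
      (Complex.cos (((θ - φ) / 2 : ℝ) : ℂ) + Complex.sin (((θ - φ) / 2 : ℝ) : ℂ) * Complex.I) =
      Complex.exp ((((θ + φ) / 2 : ℝ) : ℂ) * Complex.I) *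
      (Complex.cos (((θ - φ) / 2 : ℝ) : ℂ) - Complex.sin (((θ - φ) / 2 : ℝ) : ℂ) * Complex.I) := by
    rw [div_eq_iff h3]
    linear_combination -(Complex.exp ((((θ + φ) / 2 : ℝ) : ℂ) * Complex.I)) * h4
  rw [h5, Complex.ofReal_mul, Complex.ofReal_sin]
  push_cast
  ring

/-- the product on the unit circle -/
theorem prod_circle (hp2 : p ≠ 2) (θ : ℝ) (P : ℕ → Prop) [DecidablePred P]
    (hP : ∀ r ∈ QR p, if P r then 0 < Real.sin ((θ - 2 * Real.pi * r / p) / 2) else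
      Real.sin ((θ - 2 * Real.pi * r / p) / 2) < 0) :
    ∃ c : ℝ, 0 < c ∧ ∏ k ∈ Icc 1 ((p - 1) / 2),
      (Complex.exp (θ * Complex.I) - Complex.exp (2 * Real.pi * Complex.I * (k : ℂ) ^ 2 / p)) =
      c * Complex.exp (Real.pi * Complex.I * (((QR p).filter (fun r => ¬ P r)).card +
        ((p - 1) / 2 : ℕ) / 2 + ((p - 1) / 2 : ℕ) * θ / (2 * Real.pi) +
        (∑ r ∈ QR p, r : ℕ) / p)) := by
  have hp : p.Prime := Fact.out
  have hp0 : (p : ℂ) ≠ 0 := by exact_mod_cast hp.ne_zero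
  have hpi : (Real.pi : ℂ) ≠ 0 := by exact_mod_cast Real.pi_ne_zero
  have h1 : ∏ k ∈ Icc 1 ((p - 1) / 2),
      (Complex.exp (θ * Complex.I) - Complex.exp (2 * Real.pi * Complex.I * (k : ℂ) ^ 2 / p)) =
      ∏ r ∈ QR p, (Complex.exp (θ * Complex.I) -
        Complex.exp (((2 * Real.pi * r / p : ℝ) : ℂ) * Complex.I)) := by
    rw [← prod_sq hp2 (fun r => (Complex.exp (θ * Complex.I) -
        Complex.exp (((2 * Real.pi * r / p : ℝ) : ℂ) * Complex.I)))]
    refine Finset.prod_congr rfl fun k _ => ?_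
    congr 1
    rw [Complex.exp_eq_exp_iff_exists_int]
    obtain ⟨q, hq⟩ : ∃ q : ℕ, k ^ 2 = k ^ 2 % p + p * q := ⟨k ^ 2 / p, (Nat.mod_add_div _ _).symm⟩
    refine ⟨(q : ℤ), ?_⟩
    have h2 : (k : ℂ) ^ 2 = (k ^ 2 % p : ℕ) + p * q := by
      exact_mod_cast hq
    rw [h2]
    push_cast
    field_simp
  rw [h1]
  refine ⟨∏ r ∈ QR p, |2 * Real.sin ((θ - 2 * Real.pi * r / p) / 2)|, ?_, ?_⟩
  · apply Finset.prod_pos
    intro r hr
    have := hP r hr
    rw [abs_pos]
    split_ifs at this with h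
    · linarith
    · linarith
  · have h2 : ∀ r ∈ QR p, (Complex.exp (θ * Complex.I) -
        Complex.exp (((2 * Real.pi * r / p : ℝ) : ℂ) * Complex.I)) =
        ((|2 * Real.sin ((θ - 2 * Real.pi * r / p) / 2)| : ℝ) : ℂ) *
        ((if ¬ P r then (-1 : ℂ) else 1) * (Complex.I *
          Complex.exp (((θ + 2 * Real.pi * r / p) / 2 : ℝ) * Complex.I))) := by
      intro r hr
      rw [exp_sub]
      have := hP r hr
      split_ifs at this with h
      · rw [if_neg (by simpa using h), abs_of_pos (by linarith)]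
        ring
      · rw [if_pos h, abs_of_neg (by linarith)]
        push_cast
        ring
    rw [Finset.prod_congr rfl h2, Finset.prod_mul_distrib, Finset.prod_mul_distrib,
      Finset.prod_mul_distrib, ← Finset.prod_filter, Finset.prod_const, Finset.prod_const,
      ← Complex.exp_sum, card_QR hp2]
    push_cast
    congr 1
    have e1 : (-1 : ℂ) ^ ((QR p).filter (fun r => ¬ P r)).card =
        Complex.exp (Real.pi * Complex.I * ((QR p).filter (fun r => ¬ P r)).card) := by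
      rw [mul_comm (_ * _) _, Complex.exp_nat_mul, Complex.exp_pi_mul_I]
    have e2 : Complex.I ^ ((p - 1) / 2) = Complex.exp (Real.pi * Complex.I * (((p - 1) / 2 : ℕ) / 2)) := by
      have : (Real.pi * Complex.I * (((p - 1) / 2 : ℕ) / 2) : ℂ) =
        (((p - 1) / 2 : ℕ) : ℂ) * (Real.pi / 2 * Complex.I) := by ring
      rw [this, Complex.exp_nat_mul, Complex.exp_pi_div_two_mul_I]
    have e3 : ∑ x ∈ QR p, ((θ : ℂ) + 2 * Real.pi * x / p) / 2 * Complex.I =
        Real.pi * Complex.I * (((p - 1) / 2 : ℕ) * θ / (2 * Real.pi) + (∑ r ∈ QR p, (r : ℂ)) / p) := by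
      have e4 : ∀ x ∈ QR p, ((θ : ℂ) + 2 * Real.pi * x / p) / 2 * Complex.I =
          (θ / 2 * Complex.I) + (Real.pi * Complex.I / p) * x := by
        intro x _
        field_simp
      have e5 : ∑ x ∈ QR p, (Real.pi * Complex.I / p) * (x : ℂ) =
          (Real.pi * Complex.I / p) * ∑ x ∈ QR p, (x : ℂ) := (Finset.mul_sum _ _ _).symm
      rw [Finset.sum_congr rfl e4, Finset.sum_add_distrib, e5, Finset.sum_const,
        card_QR hp2, nsmul_eq_mul]
      field_simp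
    rw [e1, e2, e3, ← Complex.exp_add, ← Complex.exp_add]
    congr 1
    ring

end

end Pool.Agent.R441.CN
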