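import Pool.Agent.R441.CN.I
import Pool.Agent.R441.CN.J

/-! The sums and counts entering the argument of `S_p`. -/

set_option autoImplicit false

namespace Pool.Agent.R441.CN

open Finset NumberField Module Pool.Agent.R343.CFP

section
variable {p : ℕ} [Fact p.Prime]

lemma leg_tri (r : ℕ) (h0 : 0 < r) (hr : r < p) :
    legendreSym p (r : ℤ) = 1 ∨ legendreSym p (r : ℤ) = -1 := by
  apply legendreSym.eq_one_or_neg_one
  push_cast
  exact cast_ne h0 hr

lemma two_R : 2 * (∑ r ∈ QR p, (r : ℤ)) = (p : ℤ) * (p - 1) / 2 + T p := by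
  have h1 : ∑ r ∈ range p, (r : ℤ) * (1 + legendreSym p (r : ℤ)) = 2 * ∑ r ∈ QR p, (r : ℤ) := by
    rw [QR, Finset.sum_filter, Finset.mul_sum]
    refine Finset.sum_congr rfl fun r hr => ?_
    rw [mem_range] at hr
    rcases Nat.eq_zero_or_pos r with h | h
    · rw [h]; simp
    · rcases leg_tri r h hr with h' | h' <;> rw [h'] <;> norm_num
      ring
  have h2 : ∑ r ∈ range p, (r : ℤ) * (1 + legendreSym p (r : ℤ)) =
      ∑ r ∈ range p, (r : ℤ) + T p := by
    rw [T, ← Finset.sum_add_distrib]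
    refine Finset.sum_congr rfl fun r _ => ?_
    rw [← jacobiSym.legendreSym.to_jacobiSym]
    ring
  have h3 : ∑ r ∈ range p, (r : ℤ) = (p : ℤ) * (p - 1) / 2 := by
    have h4 := Finset.sum_range_id_mul_two p
    have hp := (Fact.out : p.Prime).pos
    have h5 : (∑ r ∈ range p, (r : ℤ)) * 2 = p * (p - 1) := by
      have : ((∑ r ∈ range p, r : ℕ) : ℤ) * 2 = ((p * (p - 1) : ℕ) : ℤ) := by exact_mod_cast h4
      rw [Nat.cast_mul, Nat.cast_sub (by omega)] at this
      push_cast at this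
      exact this
    omega
  rw [← h1, h2, h3]

lemma T_zero (h1 : p % 4 = 1) : T p = 0 := by
  have hp := (Fact.out : p.Prime).pos
  obtain ⟨m, hm⟩ : ∃ m, p = 4 * m + 1 := ⟨p / 4, by omega⟩
  have h2 : T p = ∑ r ∈ range p, (r : ℤ) * legendreSym p (r : ℤ) := by
    unfold T
    refine Finset.sum_congr rfl fun r _ => ?_
    rw [← jacobiSym.legendreSym.to_jacobiSym]
  have key : ∀ f : ℕ → ℤ, f 0 = 0 → (∀ r, r ≤ 4 * m + 1 → f (4 * m + 1 - r) = f r) →
      2 * ∑ r ∈ range (4 * m + 1), (r : ℤ) * f r = (4 * m + 1) * ∑ r ∈ range (4 * m + 1), f r := by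
    intro f f0 hf
    have e1 : ∑ r ∈ range (4 * m + 1), (r : ℤ) * f r =
        ∑ r ∈ range (4 * m), ((r + 1 : ℕ) : ℤ) * f (r + 1) := by
      rw [Finset.sum_range_succ']; simp
    have e2 : ∑ r ∈ range (4 * m + 1), f r = ∑ r ∈ range (4 * m), f (r + 1) := by
      rw [Finset.sum_range_succ', f0, add_zero]
    have e3 := Finset.sum_range_reflect (fun r => ((r + 1 : ℕ) : ℤ) * f (r + 1)) (4 * m)
    have e4 : ∑ j ∈ range (4 * m), ((4 * m - 1 - j + 1 : ℕ) : ℤ) * f (4 * m - 1 - j + 1) =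
        ∑ j ∈ range (4 * m), ((4 * m + 1 : ℤ) - ((j + 1 : ℕ) : ℤ)) * f (j + 1) := by
      refine Finset.sum_congr rfl fun j hj => ?_
      rw [mem_range] at hj
      rw [← hf (j + 1) (by omega)]
      congr 1
      · omega
      · congr 1
        omega
    have e5 : ∑ r ∈ range (4 * m), ((r + 1 : ℕ) : ℤ) * f (r + 1) =
        ∑ j ∈ range (4 * m), ((4 * m + 1 : ℤ) - ((j + 1 : ℕ) : ℤ)) * f (j + 1) := by
      rw [← e4]; exact e3.symm
    rw [e1, e2, two_mul]
    nth_rewrite 1 [e5]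
    rw [← Finset.sum_add_distrib, Finset.mul_sum]
    refine Finset.sum_congr rfl fun j _ => ?_
    ring
  have h3 := key (fun r => legendreSym p (r : ℤ)) (by simp [legendreSym.at_zero]) (by
    intro r hr
    show legendreSym p ((4 * m + 1 - r : ℕ) : ℤ) = legendreSym p (r : ℤ)
    have : ((4 * m + 1 - r : ℕ) : ℤ) = -(r : ℤ) + p * 1 := by
      rw [Nat.cast_sub hr, hm]; push_cast; ring
    rw [this, leg_add_mul, leg_neg h1])
  have h4 : ∑ r ∈ range (4 * m + 1), legendreSym p (r : ℤ) = 0 := by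
    have h5 := half_zero h1 m hm
    have h6 : ∑ r ∈ range p, legendreSym p (r : ℤ) = 0 := by
      have hc : ringChar (ZMod p) ≠ 2 := by rw [ZMod.ringChar_zmod_n]; omega
      have h7 := quadraticChar_sum_zero (F := ZMod p) hc
      rw [← h7]
      symm
      apply Finset.sum_nbij' (fun x : ZMod p => x.val) (fun i : ℕ => (i : ZMod p))
      · intro x _
        exact mem_range.2 (ZMod.val_lt x)
      · intro i _
        exact mem_univ _
      · intro x _
        exact ZMod.natCast_zmod_val x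
      · intro i hi
        exact ZMod.val_natCast_of_lt (mem_range.1 hi)
      · intro x _
        rw [legendreSym]
        push_cast
        rw [ZMod.natCast_zmod_val]
    have h8 : ∑ r ∈ range (4 * m + 1), legendreSym p (r : ℤ) = ∑ r ∈ range p, legendreSym p (r : ℤ) := by
      rw [← hm]
    rw [h8, h6]
  have h9 : 2 * ∑ r ∈ range (4 * m + 1), (r : ℤ) * legendreSym p (r : ℤ) =
      (4 * m + 1) * ∑ r ∈ range (4 * m + 1), legendreSym p (r : ℤ) := h3
  rw [h4, mul_zero] at h9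
  have h10 : ∑ r ∈ range (4 * m + 1), (r : ℤ) * legendreSym p (r : ℤ) =
      ∑ r ∈ range p, (r : ℤ) * legendreSym p (r : ℤ) := by rw [← hm]
  rw [h2, ← h10]
  omega

lemma R_one (h1 : p % 4 = 1) : ((∑ r ∈ QR p, r : ℕ) : ℂ) / p = ((p : ℂ) - 1) / 4 := by
  have h := two_R (p := p)
  rw [T_zero h1, add_zero] at h
  have hp := (Fact.out : p.Prime).ne_zero
  have hpc : (p : ℂ) ≠ 0 := by exact_mod_cast hp
  obtain ⟨m, hm⟩ : ∃ m, (p : ℤ) = 4 * m + 1 := ⟨(p : ℤ) / 4, by omega⟩
  have h2 : (p : ℤ) * (p - 1) / 2 = p * (2 * m) := by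
    have : (p : ℤ) - 1 = 2 * (2 * m) := by rw [hm]; ring
    rw [this, ← mul_assoc, mul_comm (p : ℤ) 2, mul_assoc, Int.mul_ediv_cancel_left _ (by norm_num)]
  rw [h2] at h
  have h3 : ∑ r ∈ QR p, (r : ℤ) = p * m := by linarith
  have h4 : ((∑ r ∈ QR p, r : ℕ) : ℂ) = p * m := by
    have : ((∑ r ∈ QR p, r : ℕ) : ℤ) = p * m := by push_cast; exact h3
    exact_mod_cast this
  have h5 : (p : ℂ) = 4 * m + 1 := by exact_mod_cast hm
  rw [h4, mul_div_cancel_left₀ _ hpc, h5]
  ring

lemma R_three (h5 : 5 ≤ p) (h3 : p % 4 = 3) (K : Type) [Field K] [NumberField K]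
    (h2 : finrank ℚ K = 2) (β : K) (hβ : β ^ 2 = -(p : K)) :
    ((∑ r ∈ QR p, r : ℕ) : ℂ) / p = ((p : ℂ) - 1) / 4 - (classNumber K : ℂ) / 2 := by
  have h := two_R (p := p)
  have hc := classNumber_three h5 h3 K h2 β hβ
  have hT : T p = -(p * classNumber K) := by linarith
  rw [hT] at h
  have hp := (Fact.out : p.Prime).ne_zero
  have hpc : (p : ℂ) ≠ 0 := by exact_mod_cast hp
  obtain ⟨m, hm⟩ : ∃ m, (p : ℤ) = 4 * m + 3 := ⟨(p : ℤ) / 4, by omega⟩
  have h2 : (p : ℤ) * (p - 1) / 2 = p * (2 * m + 1) := by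
    have : (p : ℤ) - 1 = 2 * (2 * m + 1) := by rw [hm]; ring
    rw [this, ← mul_assoc, mul_comm (p : ℤ) 2, mul_assoc, Int.mul_ediv_cancel_left _ (by norm_num)]
  rw [h2] at h
  have h4 : 2 * ((∑ r ∈ QR p, r : ℕ) : ℂ) = p * (2 * m + 1) - p * classNumber K := by
    have : 2 * ((∑ r ∈ QR p, r : ℕ) : ℤ) = p * (2 * m + 1) - p * classNumber K := by
      push_cast
      rw [h]; ring
    exact_mod_cast this
  have h6 : (p : ℂ) = 4 * m + 3 := by exact_mod_cast hm
  have h7 : ((∑ r ∈ QR p, r : ℕ) : ℂ) = p * ((2 * m + 1) / 2 - classNumber K / 2) := by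
    linear_combination h4 / 2
  rw [h7, mul_div_cancel_left₀ _ hpc, h6]
  ring

/-- the number `N_p` -/
def NN (p : ℕ) [Fact p.Prime] : ℕ :=
  ((range p).filter (fun k : ℕ => 1 ≤ k ∧ 12 * k < p ∧ legendreSym p (k : ℤ) = 1)).card

lemma NN_eq : ((QR p).filter (fun r => 12 * r < p)).card = NN p := by
  unfold NN
  congr 1
  ext r
  simp only [mem_filter, mem_range]
  constructor
  · rintro ⟨h1, h2⟩
    have := QR_pos h1
    rw [mem_QR] at h1
    exact ⟨h1.1, this, h2, h1.2⟩
  · rintro ⟨h1, h2, h3, h4⟩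
    exact ⟨(mem_QR r).2 ⟨h1, h4⟩, h3⟩

lemma NN_sub (hp2 : p ≠ 2) : (((QR p).filter (fun r => ¬ 12 * r < p)).card : ℂ) =
    ((p - 1) / 2 : ℕ) - NN p := by
  have h := Finset.card_filter_add_card_filter_not (s := QR p) (fun r => 12 * r < p)
  rw [NN_eq, card_QR hp2] at h
  rw [← h]; push_cast; ring

/-- the number of residues near `p` -/
def NP (p : ℕ) [Fact p.Prime] : ℕ := ((QR p).filter (fun r => 12 * (p - r) < p)).card

lemma NP_sub (hp2 : p ≠ 2) : (((QR p).filter (fun r => ¬ 12 * (p - r) < p)).card : ℂ) =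
    ((p - 1) / 2 : ℕ) - NP p := by
  have h := Finset.card_filter_add_card_filter_not (s := QR p) (fun r => 12 * (p - r) < p)
  rw [card_QR hp2] at h
  rw [← h]; unfold NP; push_cast; ring

lemma NP_one (h1 : p % 4 = 1) : NP p = NN p := by
  rw [← NN_eq]
  unfold NP
  apply Finset.card_nbij' (fun r => p - r) (fun r => p - r)
  · intro r hr
    simp only [coe_filter, Set.mem_setOf_eq] at hr ⊢
    obtain ⟨h2, h3⟩ := hr
    have h4 := QR_pos h2
    rw [mem_QR] at h2 ⊢
    refine ⟨⟨by omega, ?_⟩, h3⟩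
    have : ((p - r : ℕ) : ℤ) = -(r : ℤ) + p * 1 := by rw [Nat.cast_sub h2.1.le]; ring
    rw [this, leg_add_mul, leg_neg h1, h2.2]
  · intro r hr
    simp only [coe_filter, Set.mem_setOf_eq] at hr ⊢
    obtain ⟨h2, h3⟩ := hr
    have h4 := QR_pos h2
    rw [mem_QR] at h2 ⊢
    refine ⟨⟨by omega, ?_⟩, ?_⟩
    · have : ((p - r : ℕ) : ℤ) = -(r : ℤ) + p * 1 := by rw [Nat.cast_sub h2.1.le]; ring
      rw [this, leg_add_mul, leg_neg h1, h2.2]
    · omega
  · intro r hr
    simp only [coe_filter, Set.mem_setOf_eq] at hr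
    have := (mem_QR r).1 hr.1
    show p - (p - r) = r
    omega
  · intro r hr
    simp only [coe_filter, Set.mem_setOf_eq] at hr
    have := (mem_QR r).1 hr.1
    show p - (p - r) = r
    omega

lemma NP_three (h3 : p % 4 = 3) (h5 : 5 ≤ p) : NP p + NN p = p / 12 := by
  have h12 : ¬ 12 ∣ p := by
    intro h
    obtain ⟨k, hk⟩ := h
    omega
  have e1 : NP p = ((range p).filter (fun k : ℕ => (1 ≤ k ∧ 12 * k < p) ∧
      ¬ legendreSym p (k : ℤ) = 1)).card := by
    unfold NP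
    apply Finset.card_nbij' (fun r => p - r) (fun r => p - r)
    · intro r hr
      simp only [coe_filter, Set.mem_setOf_eq, mem_range] at hr ⊢
      obtain ⟨h2, h6⟩ := hr
      have h4 := QR_pos h2
      rw [mem_QR] at h2
      refine ⟨by omega, ⟨by omega, h6⟩, ?_⟩
      have : ((p - r : ℕ) : ℤ) = (-1) * (r : ℤ) + p * 1 := by rw [Nat.cast_sub h2.1.le]; ring
      rw [this, leg_add_mul, legendreSym.mul, legendreSym.at_neg_one (by omega), h2.2,
        ZMod.χ₄_nat_three_mod_four h3]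
      norm_num
    · intro r hr
      simp only [coe_filter, Set.mem_setOf_eq, mem_range] at hr ⊢
      obtain ⟨h2, ⟨h4, h6⟩, h7⟩ := hr
      have h8 : legendreSym p (r : ℤ) = -1 := by
        rcases leg_tri r (by omega) h2 with h | h
        · exact absurd h h7
        · exact h
      rw [mem_QR]
      refine ⟨⟨by omega, ?_⟩, by omega⟩
      have : ((p - r : ℕ) : ℤ) = (-1) * (r : ℤ) + p * 1 := by rw [Nat.cast_sub h2.le]; ring
      rw [this, leg_add_mul, legendreSym.mul, legendreSym.at_neg_one (by omega), h8,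
        ZMod.χ₄_nat_three_mod_four h3]
      norm_num
    · intro r hr
      simp only [coe_filter, Set.mem_setOf_eq] at hr
      have := (mem_QR r).1 hr.1
      show p - (p - r) = r
      omega
    · intro r hr
      simp only [coe_filter, Set.mem_setOf_eq, mem_range] at hr
      show p - (p - r) = r
      omega
  have e2 : NN p = ((range p).filter (fun k : ℕ => (1 ≤ k ∧ 12 * k < p) ∧
      legendreSym p (k : ℤ) = 1)).card := by
    unfold NN
    congr 1
    ext r
    simp only [mem_filter, and_assoc]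
  have e4 := Finset.card_filter_add_card_filter_not
    (s := (range p).filter (fun k : ℕ => 1 ≤ k ∧ 12 * k < p)) (fun k : ℕ => legendreSym p (k : ℤ) = 1)
  rw [Finset.filter_filter, Finset.filter_filter] at e4
  rw [e1, e2, add_comm, e4]
  have e3 : (range p).filter (fun k : ℕ => 1 ≤ k ∧ 12 * k < p) = Icc 1 (p / 12) := by
    ext r
    simp only [mem_filter, mem_range, mem_Icc]
    omega
  rw [e3, Nat.card_Icc]
  omega

lemma h_half_one (h1 : p % 4 = 1) (K : Type) [Field K] [NumberField K]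
    (h2 : finrank ℚ K = 2) (β : K) (hβ : β ^ 2 = -(p : K)) :
    ∃ t : ℤ, ((classNumber K / 2 : ℕ) : ℤ) = ((p - 1) / 4 : ℕ) + 2 * t := by
  have h := classNumber_one h1 K h2 β hβ
  have h3 : ((classNumber K / 2 : ℕ) : ℤ) = |AQ p| := by
    push_cast
    rw [h, Int.mul_ediv_cancel_left _ (by norm_num)]
  rw [h3]
  have h4 : ∃ t : ℤ, AQ p = ((p - 1) / 4 : ℕ) + 2 * t := by
    unfold AQ
    have hlt : (p - 1) / 4 < p := by have := (Fact.out : p.Prime).two_le; omega
    have key : ∀ n : ℕ, n < p → ∃ t : ℤ, ∑ j ∈ range n, legendreSym p ((j + 1 : ℕ) : ℤ) = n + 2 * t := by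
      intro n
      induction n with
      | zero => intro _; exact ⟨0, by simp⟩
      | succ n ih =>
        intro hn
        obtain ⟨t, ht⟩ := ih (by omega)
        rw [Finset.sum_range_succ, ht]
        rcases leg_tri (p := p) (n + 1) (by omega) hn with h | h <;> rw [h]
        · exact ⟨t, by push_cast; ring⟩
        · exact ⟨t - 1, by push_cast; ring⟩
    exact key _ hlt
  obtain ⟨t, ht⟩ := h4
  rcases abs_choice (AQ p) with h5 | h5 <;> rw [h5, ht]
  · exact ⟨t, rfl⟩
  · exact ⟨-t - ((p - 1) / 4 : ℕ), by push_cast; ring⟩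

end

end Pool.Agent.R441.CN
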