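import Pool.Agent.R441.CN.K

/-! The argument of `S_p` at the primitive twelfth roots of unity `e^{± 2πi/12}`. -/

set_option autoImplicit false

namespace Pool.Agent.R441.CN

open Finset NumberField Module Pool.Agent.R343.CFP

section
variable {p : ℕ} [Fact p.Prime]

lemma not_twelve (h5 : 5 ≤ p) (m : ℕ) (hm : m = 1 ∨ m = 11) (r : ℕ) (h : 12 * r = m * p) : False := by
  have hp : p.Prime := Fact.out
  have h1 : 12 ∣ p := by
    have h2 : 12 ∣ m * p := ⟨r, h.symm⟩
    rcases hm with rfl | rfl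
    · simpa using h2
    · exact (Nat.Coprime.dvd_of_dvd_mul_left (by norm_num) h2)
  have h3 : 2 ∣ p := dvd_trans (by norm_num) h1
  have h4 := (Nat.prime_dvd_prime_iff_eq Nat.prime_two hp).1 h3
  omega

theorem S_plus (h5 : 5 ≤ p) : ∃ c : ℝ, 0 < c ∧ ∏ k ∈ Icc 1 ((p - 1) / 2),
      (Complex.exp (2 * Real.pi * Complex.I * 1 / 12) -
        Complex.exp (2 * Real.pi * Complex.I * (k : ℂ) ^ 2 / p)) =
      c * Complex.exp (Real.pi * Complex.I * (((p - 1) / 2 : ℕ) - NN p +
        ((p - 1) / 2 : ℕ) / 2 + ((p - 1) / 2 : ℕ) / 12 + (∑ r ∈ QR p, r : ℕ) / p)) := by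
  have hp : p.Prime := Fact.out
  have hpi := Real.pi_pos
  have hp0 : (0 : ℝ) < p := by exact_mod_cast hp.pos
  obtain ⟨c, hc, h⟩ := prod_circle (p := p) (by omega) (Real.pi / 6) (fun r => 12 * r < p) (by
    intro r hr
    have hr0 := QR_pos hr
    rw [mem_QR] at hr
    have e : (Real.pi / 6 - 2 * Real.pi * r / p) / 2 = Real.pi * (1 / 12 - r / p) := by ring
    rw [e]
    have hr1 : (0 : ℝ) < r := by exact_mod_cast hr0
    have hr2 : (r : ℝ) < p := by exact_mod_cast hr.1
    have hr3 : 0 < (r : ℝ) / p := by positivity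
    have hr4 : (r : ℝ) / p < 1 := by rw [div_lt_one hp0]; exact hr2
    split_ifs with h
    · have h' : (12 : ℝ) * r < p := by exact_mod_cast h
      have h6 : (r : ℝ) / p < 1 / 12 := by rw [div_lt_div_iff₀ hp0 (by norm_num)]; linarith
      apply Real.sin_pos_of_pos_of_lt_pi
      · apply mul_pos hpi; linarith
      · nlinarith
    · have h' : (p : ℝ) < 12 * r := by
        have h7 : p < 12 * r := by
          rcases Nat.lt_or_ge p (12 * r) with h8 | h8
          · exact h8
          · exfalso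
            apply not_twelve h5 1 (Or.inl rfl) r
            omega
        exact_mod_cast h7
      have h6 : 1 / 12 < (r : ℝ) / p := by rw [div_lt_div_iff₀ (by norm_num) hp0]; linarith
      apply Real.sin_neg_of_neg_of_neg_pi_lt
      · nlinarith
      · nlinarith)
  refine ⟨c, hc, ?_⟩
  have e1 : (2 * Real.pi * Complex.I * 1 / 12 : ℂ) = ((Real.pi / 6 : ℝ) : ℂ) * Complex.I := by
    push_cast; ring
  rw [e1, h, NN_sub (by omega)]
  have hpc : (Real.pi : ℂ) ≠ 0 := by exact_mod_cast hpi.ne'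
  congr 3
  congr 1
  congr 1
  push_cast
  field_simp
  ring

theorem S_minus (h5 : 5 ≤ p) : ∃ c : ℝ, 0 < c ∧ ∏ k ∈ Icc 1 ((p - 1) / 2),
      (Complex.exp (2 * Real.pi * Complex.I * (-1) / 12) -
        Complex.exp (2 * Real.pi * Complex.I * (k : ℂ) ^ 2 / p)) =
      c * Complex.exp (Real.pi * Complex.I * (((p - 1) / 2 : ℕ) - NP p +
        ((p - 1) / 2 : ℕ) / 2 - ((p - 1) / 2 : ℕ) / 12 + (∑ r ∈ QR p, r : ℕ) / p)) := by
  have hp : p.Prime := Fact.out
  have hpi := Real.pi_pos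
  have hp0 : (0 : ℝ) < p := by exact_mod_cast hp.pos
  obtain ⟨c, hc, h⟩ := prod_circle (p := p) (by omega) (-(Real.pi / 6)) (fun r => 12 * (p - r) < p) (by
    intro r hr
    have hr0 := QR_pos hr
    rw [mem_QR] at hr
    have e : (-(Real.pi / 6) - 2 * Real.pi * r / p) / 2 = -(Real.pi * (1 / 12 + r / p)) := by ring
    rw [e]
    have hr1 : (0 : ℝ) < r := by exact_mod_cast hr0
    have hr2 : (r : ℝ) < p := by exact_mod_cast hr.1
    have hr3 : 0 < (r : ℝ) / p := by positivity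
    have hr4 : (r : ℝ) / p < 1 := by rw [div_lt_one hp0]; exact hr2
    split_ifs with h
    · have h7 : 11 * p < 12 * r := by omega
      have h' : (11 : ℝ) * p < 12 * r := by exact_mod_cast h7
      have h6 : 11 / 12 < (r : ℝ) / p := by rw [div_lt_div_iff₀ (by norm_num) hp0]; linarith
      rw [Real.sin_neg, ← Real.sin_sub_pi]
      apply Real.sin_pos_of_pos_of_lt_pi
      · nlinarith
      · nlinarith
    · have h' : (12 : ℝ) * r < 11 * p := by
        have h7 : 12 * r < 11 * p := by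
          rcases Nat.lt_or_ge (12 * r) (11 * p) with h8 | h8
          · exact h8
          · exfalso
            apply not_twelve h5 11 (Or.inr rfl) r
            omega
        exact_mod_cast h7
      have h6 : (r : ℝ) / p < 11 / 12 := by rw [div_lt_div_iff₀ hp0 (by norm_num)]; linarith
      apply Real.sin_neg_of_neg_of_neg_pi_lt
      · have : 0 < Real.pi * (1 / 12 + r / p) := by positivity
        linarith
      · nlinarith)
  refine ⟨c, hc, ?_⟩
  have e1 : (2 * Real.pi * Complex.I * (-1) / 12 : ℂ) = ((-(Real.pi / 6) : ℝ) : ℂ) * Complex.I := by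
    push_cast; ring
  rw [e1, h, NP_sub (by omega)]
  have hpc : (Real.pi : ℂ) ≠ 0 := by exact_mod_cast hpi.ne'
  congr 3
  have e2 : (((p - 1) / 2 : ℕ) : ℂ) * ((-(Real.pi / 6) : ℝ) : ℂ) / (2 * Real.pi) =
      - ((((p - 1) / 2 : ℕ) : ℂ) / 12) := by
    push_cast
    field_simp
    ring
  rw [e2]
  ring

lemma h_odd_three (h5 : 5 ≤ p) (h3 : p % 4 = 3) (K : Type) [Field K] [NumberField K]
    (h2 : finrank ℚ K = 2) (β : K) (hβ : β ^ 2 = -(p : K)) : ∃ j : ℕ, classNumber K = 2 * j + 1 := by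
  have h := two_R (p := p)
  have hc := classNumber_three h5 h3 K h2 β hβ
  have hT : T p = -(p * classNumber K) := by linarith
  rw [hT] at h
  obtain ⟨m, hm⟩ : ∃ m, (p : ℤ) = 4 * m + 3 := ⟨(p : ℤ) / 4, by omega⟩
  have h2 : (p : ℤ) * (p - 1) / 2 = p * (2 * m + 1) := by
    have : (p : ℤ) - 1 = 2 * (2 * m + 1) := by rw [hm]; ring
    rw [this, ← mul_assoc, mul_comm (p : ℤ) 2, mul_assoc, Int.mul_ediv_cancel_left _ (by norm_num)]
  rw [h2, hm] at h
  have h6 : (classNumber K : ℤ) % 2 = 1 := by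
    rcases Int.emod_two_eq_zero_or_one (classNumber K : ℤ) with h7 | h7
    · exfalso
      obtain ⟨j, hj⟩ : ∃ j, (classNumber K : ℤ) = 2 * j := ⟨(classNumber K : ℤ) / 2, by omega⟩
      rw [hj] at h
      have : 2 * ((∑ r ∈ QR p, (r : ℤ)) - (4 * m ^ 2 + 5 * m + 1) + (4 * m + 3) * j) = 1 := by
        linear_combination h
      omega
    · exact h7
  exact ⟨classNumber K / 2, by omega⟩

/-- assembling -/
lemma assemble {c : ℝ} (hc : 0 < c) (M : ℕ) (x y : ℂ) (q : ℤ) (hq : (M : ℂ) + x + y = q)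
    (z : ℂ) (hz : z = (-1) ^ M * Complex.exp (Real.pi * Complex.I * x) *
      (c * Complex.exp (Real.pi * Complex.I * y))) : z = c * (-1) ^ q := by
  have e1 : (-1 : ℂ) ^ M = Complex.exp (Real.pi * Complex.I * M) := by
    rw [mul_comm (_ * _) _, Complex.exp_nat_mul, Complex.exp_pi_mul_I]
  have e2 : (-1 : ℂ) ^ q = Complex.exp (Real.pi * Complex.I * q) := by
    rw [mul_comm (_ * _) _, Complex.exp_int_mul, Complex.exp_pi_mul_I]
  rw [hz, e1, e2, ← hq]
  rw [show Complex.exp (Real.pi * Complex.I * M) * Complex.exp (Real.pi * Complex.I * x) *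
      (c * Complex.exp (Real.pi * Complex.I * y)) = c * (Complex.exp (Real.pi * Complex.I * M) *
      Complex.exp (Real.pi * Complex.I * x) * Complex.exp (Real.pi * Complex.I * y)) by ring,
    ← Complex.exp_add, ← Complex.exp_add]
  congr 2
  ring

lemma pos_even {c : ℝ} (hc : 0 < c) (q : ℤ) (hq : Even q) (z : ℂ) (hz : z = c * (-1) ^ q) :
    z.im = 0 ∧ 0 < z.re := by
  rw [hz, hq.neg_one_zpow, mul_one]
  exact ⟨Complex.ofReal_im c, by simpa using hc⟩

lemma neg_odd {c : ℝ} (hc : 0 < c) (q : ℤ) (hq : Odd q) (z : ℂ) (hz : z = c * (-1) ^ q) :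
    z.im = 0 ∧ z.re < 0 := by
  rw [hz, hq.neg_one_zpow]
  simp [hc]

end

end Pool.Agent.R441.CN
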